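import Pool.Agent.H23.GLM.Func
import Pool.Agent.H23.GLH.Instance

/-! Primitive Dirichlet characters define `L`-data of degree one. -/

set_option autoImplicit false

open Complex MeasureTheory Set Filter Topology

namespace Pool.Agent.H23.GLM

open Pool.Agent.H23.GLH DirichletCharacter

lemma Gammaℝ_conj (s : ℂ) : Gammaℝ ((starRingEnd ℂ) s) = (starRingEnd ℂ) (Gammaℝ s) := by
  rw [Gammaℝ_def, Gammaℝ_def, map_mul, ← Gamma_conj]
  congr 1
  · have h1 : -(starRingEnd ℂ) s / 2 = (starRingEnd ℂ) (-s / 2) := by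
      rw [map_div₀, map_neg, map_ofNat]
    rw [h1, cpow_conj _ _ (by
      rw [Complex.arg_ofReal_of_nonneg Real.pi_pos.le]; exact Real.pi_pos.ne), conj_ofReal]
  · congr 1
    rw [map_div₀, map_ofNat]

section

variable {N : ℕ} [NeZero N] (χ : DirichletCharacter ℂ N)

lemma LFunction_conj' (hχ : χ ≠ 1) (s : ℂ) :
    (χ⁻¹).LFunction ((starRingEnd ℂ) s) = (starRingEnd ℂ) (χ.LFunction s) := by
  have hχ' : χ⁻¹ ≠ 1 := by rwa [Ne, inv_eq_one]
  have h1 : Continuous fun s : ℂ => (χ⁻¹).LFunction ((starRingEnd ℂ) s) :=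
    (differentiable_LFunction hχ').continuous.comp continuous_conj
  have h2 : Continuous fun s : ℂ => (starRingEnd ℂ) (χ.LFunction s) :=
    continuous_conj.comp (differentiable_LFunction hχ).continuous
  have key := Continuous.ext_on (dense_compl_singleton (1 : ℂ)) h1 h2
    fun z hz => LFunction_conj χ (s := z) hz
  exact congrFun key s

/-- The asymmetric functional equation in a half plane. -/
lemma LFunction_one_sub_eq' (hN : N ≠ 1) (hχ : χ.IsPrimitive) {s : ℂ} (hs : 0 < s.re) :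
    ∃ T : ℂ, ‖T‖ ≤ Real.exp |(Real.pi * s / 2 : ℂ).im| ∧
      χ.LFunction (1 - s) = (N : ℂ) ^ (s - 1 / 2) * rootNumber χ * (Gammaℂ s * T) *
        (χ⁻¹).LFunction s := by
  have hs0 : s ≠ 0 := by rintro rfl; simp at hs
  have hfe := hχ.completedLFunction_one_sub s
  have h1 := LFunction_eq_completed_div_gammaFactor χ (1 - s) (Or.inr hN)
  have h2 := LFunction_eq_completed_div_gammaFactor χ⁻¹ s (Or.inl hs0)
  have hsn : ∀ n : ℕ, s ≠ -n := by
    intro n h
    rw [h] at hs
    simp at hs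
    have : (0:ℝ) ≤ n := Nat.cast_nonneg n
    linarith
  rcases χ.even_or_odd with he | ho
  · have he' : (χ⁻¹).Even := by
      rw [DirichletCharacter.Even] at he ⊢
      rw [MulChar.inv_apply_eq_inv', he, inv_one]
    refine ⟨Complex.cos (Real.pi * s / 2), norm_cos_le _, ?_⟩
    have hγ0 : Gammaℝ s ≠ 0 := Gammaℝ_ne_zero_of_re_pos hs
    rw [he.gammaFactor_def] at h1
    rw [he'.gammaFactor_def] at h2
    have h3 : completedLFunction χ⁻¹ s = (χ⁻¹).LFunction s * Gammaℝ s := by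
      rw [h2, div_mul_cancel₀ _ hγ0]
    rw [h1, hfe, h3, div_eq_mul_inv, inv_Gammaℝ_one_sub hsn]
    field_simp
  · have ho' : (χ⁻¹).Odd := by
      rw [DirichletCharacter.Odd] at ho ⊢
      rw [MulChar.inv_apply_eq_inv', ho, inv_neg, inv_one]
    refine ⟨Complex.sin (Real.pi * s / 2), norm_sin_le _, ?_⟩
    have hγ0 : Gammaℝ (s + 1) ≠ 0 := Gammaℝ_ne_zero_of_re_pos (by simp; linarith)
    rw [ho.gammaFactor_def, show (1 : ℂ) - s + 1 = 2 - s by ring] at h1
    rw [ho'.gammaFactor_def] at h2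
    have h3 : completedLFunction χ⁻¹ s = (χ⁻¹).LFunction s * Gammaℝ (s + 1) := by
      rw [h2, div_mul_cancel₀ _ hγ0]
    rw [h1, hfe, h3, div_eq_mul_inv, inv_Gammaℝ_two_sub hsn]
    field_simp

lemma norm_Gamma_le_re {s : ℂ} (hs : 0 < s.re) : ‖Gamma s‖ ≤ Real.Gamma s.re := by
  rw [Complex.Gamma_eq_integral hs, Real.Gamma_eq_integral hs, Complex.GammaIntegral]
  refine (norm_integral_le_integral_norm _).trans (le_of_eq ?_)
  refine setIntegral_congr_fun measurableSet_Ioi fun x hx => ?_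
  have hx' : 0 < x := hx
  rw [norm_mul, Complex.norm_cpow_eq_rpow_re_of_pos hx', Complex.norm_real,
    Real.norm_of_nonneg (Real.exp_pos _).le]
  simp

lemma LFunction_order (hN : N ≠ 1) (hχ : χ.IsPrimitive) (hχ1 : χ ≠ 1) (σ₁ σ₂ : ℝ) :
    ∃ (A : ℝ) (k : ℕ), ∀ s : ℂ, σ₁ ≤ s.re → s.re ≤ σ₂ →
      ‖χ.LFunction s‖ ≤ Real.exp (A * (1 + ‖s‖) ^ k) := by
  have hχ' : χ⁻¹ ≠ 1 := by rwa [Ne, inv_eq_one]
  have hpi := Real.pi_pos
  have hN1 : (1:ℝ) ≤ N := by exact_mod_cast Nat.one_le_iff_ne_zero.mpr (NeZero.ne N)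
  -- bound for the Gamma function
  obtain ⟨G, hG⟩ : ∃ G : ℝ, ∀ x ∈ Icc (1 / 2 : ℝ) (1 + |σ₁|), ‖Real.Gamma x‖ ≤ G := by
    refine isCompact_Icc.exists_bound_of_continuousOn fun x hx => ?_
    refine (Real.differentiableAt_Gamma fun m => ?_).continuousAt.continuousWithinAt
    have := hx.1
    have : (0:ℝ) ≤ m := Nat.cast_nonneg m
    linarith
  set c : ℝ := (N:ℝ) ^ (1 + |σ₁|) * 2 * (|G| + 1) * (2 * N) with hc
  have hNr : (1:ℝ) ≤ (N:ℝ) ^ (1 + |σ₁|) := Real.one_le_rpow hN1 (by positivity)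
  have hG1 : (1:ℝ) ≤ |G| + 1 := by have := abs_nonneg G; linarith
  have hc2N : 2 * (N:ℝ) ≤ c := by
    calc 2 * (N:ℝ) = 1 * 1 * 1 * (2 * N) := by ring
      _ ≤ _ := by rw [hc]; gcongr; norm_num
  have hc1 : 1 ≤ c := by linarith
  have hbound : ∀ s : ℂ, σ₁ ≤ s.re → s.re ≤ σ₂ →
      ‖χ.LFunction s‖ ≤ c * (1 + ‖s‖) * Real.exp (2 * ‖s‖) := by
    intro s hs1 _
    have hns := norm_nonneg s
    rcases le_or_gt (1 / 2) s.re with h | h
    · have h1 := Pool.Agent.Ratios.norm_LFunction_le χ hχ1 s (by linarith)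
      have h2 : (N:ℝ) * ‖s‖ / s.re ≤ 2 * N * ‖s‖ := by
        rw [div_le_iff₀ (by linarith)]
        have : 0 ≤ (N:ℝ) * ‖s‖ := by positivity
        nlinarith
      have h3 : (1:ℝ) ≤ Real.exp (2 * ‖s‖) := Real.one_le_exp (by positivity)
      calc ‖χ.LFunction s‖ ≤ 2 * N * ‖s‖ := h1.trans h2
        _ ≤ c * (1 + ‖s‖) * 1 := by
            rw [mul_one]
            gcongr
            linarith
        _ ≤ _ := by gcongr
    · set w : ℂ := 1 - s with hw
      have hwre : w.re = 1 - s.re := by simp [hw]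
      obtain ⟨T, hT, hfe⟩ := LFunction_one_sub_eq' χ hN hχ (s := w) (by rw [hwre]; linarith)
      have e1 : 1 - w = s := by rw [hw]; ring
      rw [e1] at hfe
      have hwabs : w.re ≤ 1 + |σ₁| := by
        rw [hwre]
        have := neg_le_abs σ₁
        linarith
      have h1 : ‖(N : ℂ) ^ (w - 1 / 2)‖ ≤ (N : ℝ) ^ (1 + |σ₁|) := by
        rw [Complex.norm_natCast_cpow_of_pos (NeZero.pos N)]
        apply Real.rpow_le_rpow_of_exponent_le hN1
        simp
        linarith
      have h2 : ‖Gammaℂ w‖ ≤ 2 * (|G| + 1) := by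
        rw [Gammaℂ_def, norm_mul, norm_mul]
        have h2 : ‖(2 : ℂ)‖ = 2 := by simp
        have h3 : ‖(2 * (Real.pi : ℂ)) ^ (-w)‖ ≤ 1 := by
          have : (2 * (Real.pi : ℂ)) = ((2 * Real.pi : ℝ) : ℂ) := by push_cast; ring
          rw [this, Complex.norm_cpow_eq_rpow_re_of_pos (by positivity), neg_re, hwre]
          apply Real.rpow_le_one_of_one_le_of_nonpos
          · have := Real.pi_gt_three; linarith
          · linarith
        have h4 : ‖Gamma w‖ ≤ |G| + 1 := by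
          refine (norm_Gamma_le_re (by rw [hwre]; linarith)).trans ?_
          have h5 := hG w.re ⟨by rw [hwre]; linarith, hwabs⟩
          have h6 := Real.le_norm_self (Real.Gamma w.re)
          have h7 := le_abs_self G
          linarith
        rw [h2]
        calc 2 * ‖(2 * (Real.pi : ℂ)) ^ (-w)‖ * ‖Gamma w‖ ≤ 2 * 1 * (|G| + 1) := by gcongr
          _ = _ := by ring
      have h3 : ‖T‖ ≤ Real.exp (2 * ‖s‖) := by
        refine hT.trans ?_
        apply Real.exp_le_exp.mpr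
        have him2 : (Real.pi * w / 2 : ℂ).im = -(Real.pi * s.im / 2) := by
          have : (Real.pi * w / 2 : ℂ) = ((Real.pi / 2 : ℝ) : ℂ) * w := by push_cast; ring
          rw [this, im_ofReal_mul, hw]
          simp
          ring
        rw [him2, abs_neg, abs_div, abs_mul, abs_of_pos hpi, abs_of_pos (by norm_num : (0:ℝ) < 2)]
        have h4 := Complex.abs_im_le_norm s
        have h5 := Real.pi_lt_d2
        have h6 := abs_nonneg s.im
        nlinarith
      have h4 : ‖(χ⁻¹).LFunction w‖ ≤ 2 * N * (1 + ‖s‖) := by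
        have h5 := Pool.Agent.Ratios.norm_LFunction_le χ⁻¹ hχ' w (by rw [hwre]; linarith)
        have h6 : (N:ℝ) * ‖w‖ / w.re ≤ 2 * N * ‖w‖ := by
          rw [div_le_iff₀ (by rw [hwre]; linarith)]
          have : 0 ≤ (N:ℝ) * ‖w‖ := by positivity
          have : 1 / 2 ≤ w.re := by rw [hwre]; linarith
          nlinarith
        have h7 : ‖w‖ ≤ 1 + ‖s‖ := by
          rw [hw]
          refine (norm_sub_le _ _).trans ?_
          simp
        calc _ ≤ 2 * N * ‖w‖ := h5.trans h6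
          _ ≤ _ := by gcongr
      rw [hfe, norm_mul, norm_mul, norm_mul, norm_mul, norm_rootNumber χ hχ, mul_one]
      calc ‖(N : ℂ) ^ (w - 1 / 2)‖ * (‖Gammaℂ w‖ * ‖T‖) * ‖(χ⁻¹).LFunction w‖
          ≤ (N : ℝ) ^ (1 + |σ₁|) * ((2 * (|G| + 1)) * Real.exp (2 * ‖s‖)) *
            (2 * N * (1 + ‖s‖)) := by gcongr
        _ = _ := by rw [hc]; ring
  refine ⟨Real.log c + 3, 1, fun s hs1 hs2 => (hbound s hs1 hs2).trans ?_⟩
  have hns := norm_nonneg s
  have hlog : 0 ≤ Real.log c := Real.log_nonneg hc1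
  rw [pow_one]
  calc c * (1 + ‖s‖) * Real.exp (2 * ‖s‖)
      ≤ Real.exp (Real.log c) * Real.exp ‖s‖ * Real.exp (2 * ‖s‖) := by
        rw [Real.exp_log (by linarith)]
        have := Real.add_one_le_exp ‖s‖
        gcongr
        linarith
    _ = Real.exp (Real.log c + ‖s‖ + 2 * ‖s‖) := by rw [Real.exp_add, Real.exp_add]
    _ ≤ _ := by
        apply Real.exp_le_exp.mpr
        nlinarith

open scoped Classical in
/-- The archimedean parameter. -/
noncomputable def par : ℂ := if χ.Even then 0 else -1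

lemma par_gamma (s : ℂ) : Gammaℝ (s - par χ) = gammaFactor χ s := by
  classical
  unfold par
  rcases χ.even_or_odd with he | ho
  · rw [if_pos he, he.gammaFactor_def, sub_zero]
  · rw [if_neg ho.not_even, ho.gammaFactor_def, sub_neg_eq_add]

lemma even_of_one {N : ℕ} (χ : DirichletCharacter ℂ N) (h : N = 1) : χ.Even := by
  subst h
  rw [DirichletCharacter.Even]
  have : (-1 : ZMod 1) = 1 := Subsingleton.elim _ _
  rw [this, map_one]

lemma gammaFactor_inv_conj (s : ℂ) :
    gammaFactor χ⁻¹ ((starRingEnd ℂ) s) = (starRingEnd ℂ) (gammaFactor χ s) := by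
  rcases χ.even_or_odd with he | ho
  · have he' : (χ⁻¹).Even := by
      rw [DirichletCharacter.Even] at he ⊢
      rw [MulChar.inv_apply_eq_inv', he, inv_one]
    rw [he.gammaFactor_def, he'.gammaFactor_def, Gammaℝ_conj]
  · have ho' : (χ⁻¹).Odd := by
      rw [DirichletCharacter.Odd] at ho ⊢
      rw [MulChar.inv_apply_eq_inv', ho, inv_neg, inv_one]
    rw [ho.gammaFactor_def, ho'.gammaFactor_def, ← Gammaℝ_conj, map_add, map_one]

/-- The functional equation in the form of `LData`. -/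
lemma functional_dirichlet (hχ : χ.IsPrimitive) (s : ℂ) (h1 : Gammaℝ (s - par χ) ≠ 0)
    (h2 : Gammaℝ (1 - (starRingEnd ℂ) s - par χ) ≠ 0) :
    Gammaℝ (s - par χ) * χ.LFunction s = rootNumber χ * (N : ℂ) ^ (1 / 2 - s) *
      (starRingEnd ℂ) (Gammaℝ (1 - (starRingEnd ℂ) s - par χ) *
        χ.LFunction (1 - (starRingEnd ℂ) s)) := by
  rw [par_gamma] at h1 h2 ⊢
  rw [par_gamma]
  have hz : (starRingEnd ℂ) (1 - (starRingEnd ℂ) s) = 1 - s := by simp
  have hG0 : Gammaℝ 0 = 0 := by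
    rw [Gammaℝ_eq_zero_iff]; exact ⟨0, by simp⟩
  have hs0 : s ≠ 0 ∨ N ≠ 1 := by
    by_contra hcon
    push Not at hcon
    obtain ⟨rfl, hN⟩ := hcon
    rw [(even_of_one χ hN).gammaFactor_def] at h1
    exact h1 hG0
  have hs1 : 1 - s ≠ 0 ∨ N ≠ 1 := by
    by_contra hcon
    push Not at hcon
    obtain ⟨h3, hN⟩ := hcon
    rw [(even_of_one χ hN).gammaFactor_def] at h2
    have : 1 - (starRingEnd ℂ) s = 0 := by
      have := congrArg (starRingEnd ℂ) h3
      simpa using this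
    rw [this] at h2
    exact h2 hG0
  have hγ2 : gammaFactor χ⁻¹ (1 - s) = (starRingEnd ℂ) (gammaFactor χ (1 - (starRingEnd ℂ) s)) := by
    rw [← gammaFactor_inv_conj, hz]
  have hγ2' : gammaFactor χ⁻¹ (1 - s) ≠ 0 := by
    rw [hγ2, Ne, map_eq_zero]; exact h2
  have hL : (χ⁻¹).LFunction (1 - s) = (starRingEnd ℂ) (χ.LFunction (1 - (starRingEnd ℂ) s)) := by
    by_cases hN : N = 1
    · have hz1 : 1 - (starRingEnd ℂ) s ≠ 1 := by
        intro h
        have h3 : (starRingEnd ℂ) s = 0 := by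
          have : (starRingEnd ℂ) s = 1 - (1 - (starRingEnd ℂ) s) := by ring
          rw [this, h]; ring
        have h4 : s = 0 := by rwa [map_eq_zero] at h3
        rcases hs0 with h5 | h5
        · exact h5 h4
        · exact h5 hN
      rw [← LFunction_conj χ hz1, hz]
    · have hχ1 : χ ≠ 1 := by
        intro h
        rw [isPrimitive_def, h, conductor_one] at hχ
        exact hN hχ.symm
      rw [← LFunction_conj' χ hχ1, hz]
  have f1 := LFunction_eq_completed_div_gammaFactor χ s hs0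
  have f2 := LFunction_eq_completed_div_gammaFactor χ⁻¹ (1 - s) hs1
  have f3 := hχ.completedLFunction_one_sub (1 - s)
  have e1 : (1:ℂ) - (1 - s) = s := by ring
  rw [e1] at f3
  have e2 : (1:ℂ) - s - 1 / 2 = 1 / 2 - s := by ring
  rw [e2] at f3
  rw [map_mul, ← hγ2, ← hL, f1, f2, mul_div_cancel₀ _ h1, mul_div_cancel₀ _ hγ2', f3]
  ring

end

/-- The `L`-datum of a primitive Dirichlet character. -/
noncomputable def ofPrimChar (π : PrimChar) : LData 1 :=
  letI := π.q_ne
  { N := π.q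
    N_ne := NeZero.ne π.q
    μ := fun _ => par π.χ
    re_μ_lt := by
      intro _
      classical
      unfold par
      split_ifs <;> norm_num
    L := π.L
    regular := by
      by_cases h : π.q = 1
      · right
        refine ⟨rfl, h, ?_, ?_⟩
        · funext _
          unfold par
          rw [if_pos (even_of_one π.χ h)]
          rfl
        · funext s
          exact π.L_of_one h s
      · left
        exact ⟨differentiable_LFunction (π.χ_ne_one h),
          LFunction_order π.χ h π.prim (π.χ_ne_one h)⟩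
    functional := by
      refine ⟨rootNumber π.χ, norm_rootNumber π.χ π.prim, fun s h1 h2 => ?_⟩
      rw [archFactor, Fin.prod_univ_one] at h1 h2 ⊢
      rw [archFactor, Fin.prod_univ_one]
      exact functional_dirichlet π.χ π.prim s h1 h2 }

lemma ofPrimChar_L (π : PrimChar) : (ofPrimChar π).L = π.L := rfl

lemma ofPrimChar_N (π : PrimChar) : (ofPrimChar π).N = π.q := rfl

lemma ofPrimChar_C (π : PrimChar) : (ofPrimChar π).C = π.C := by
  classical
  show (π.q : ℝ) * ∏ _j : Fin 1, (1 + ‖par π.χ‖) = π.C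
  rw [Fin.prod_univ_one]
  unfold par PrimChar.C
  split_ifs <;> norm_num

lemma norm_LFunction_right {N : ℕ} [NeZero N] (χ : DirichletCharacter ℂ N) {δ : ℝ} (hδ : 0 < δ)
    {s : ℂ} (hs : 1 + δ ≤ s.re) :
    ‖LFunction χ s‖ ≤ ∑' n : ℕ, 1 / (n : ℝ) ^ (1 + δ) := by
  have h1 : (1:ℝ) < s.re := by linarith
  rw [DirichletCharacter.LFunction_eq_LSeries χ h1, LSeries]
  refine tsum_of_norm_bounded
    (Real.summable_one_div_nat_rpow.mpr (by linarith : 1 < 1 + δ)).hasSum fun n => ?_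
  rcases Nat.eq_zero_or_pos n with rfl | hn
  · rw [LSeries.term_zero, norm_zero]; positivity
  · rw [LSeries.norm_term_eq, if_neg hn.ne']
    have h1 : ‖χ (n : ZMod N)‖ ≤ 1 := DirichletCharacter.norm_le_one χ _
    have hn1 : (1:ℝ) ≤ n := by exact_mod_cast hn
    have h2 : (n:ℝ) ^ (1 + δ) ≤ (n:ℝ) ^ s.re := Real.rpow_le_rpow_of_exponent_le hn1 hs
    gcongr

/-- Molteni's bound for primitive Dirichlet characters. -/
theorem molteni_primChar (S : Set PrimChar) : Molteni (ofPrimChar '' S) := by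
  intro ε hε
  refine ⟨∑' n : ℕ, 1 / (n : ℝ) ^ (1 + ε), ?_⟩
  rintro _ ⟨π, _, rfl⟩ s hs
  have := π.q_ne
  have h1 : ‖(ofPrimChar π).L s‖ ≤ ∑' n : ℕ, 1 / (n : ℝ) ^ (1 + ε) :=
    norm_LFunction_right π.χ hε hs
  have h2 : 1 ≤ (ofPrimChar π).C ^ ε := Real.one_le_rpow (ofPrimChar π).one_le_C hε.le
  have h3 : 0 ≤ ∑' n : ℕ, 1 / (n : ℝ) ^ (1 + ε) := tsum_nonneg fun n => by positivity
  nlinarith

end Pool.Agent.H23.GLM
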