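import Mathlib

/-!
# Standard `L`-functions of degree `m` and their Lindelof bounds

`LData m` lists the properties of the standard `L`-function of a cuspidal automorphic representation
`π` of `GL_m` over `ℚ` (with unitary central character, trivial on `ℝ_{>0}`) which we use: the
conductor `N`, the archimedean parameters `μ_j` with `Re μ_j < 1/2` (Jacquet and Shalika), the
analytic continuation, of finite order in vertical strips (Godement and Jacquet), and the functional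
equation. The bound `Molteni` for a set of such data is known for the set of all `π`.
-/

set_option autoImplicit false

open Complex MeasureTheory Set

namespace Pool.Agent.H23.GLM

/-- The archimedean factor `∏_j Γ_ℝ(s - μ_j)`, where `Γ_ℝ(s) = π^{-s/2} Γ(s/2)`. (In Mathlib
`Γ_ℝ(s)` is `0` at the poles and has no other zeros, so `archFactor μ s ≠ 0` says that `s` is not a
pole.) -/
noncomputable def archFactor {m : ℕ} (μ : Fin m → ℂ) (s : ℂ) : ℂ := ∏ j, Gammaℝ (s - μ j)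

/-- The data of a standard `L`-function of degree `m`. -/
structure LData (m : ℕ) where
  /-- the conductor -/
  N : ℕ
  N_ne : N ≠ 0
  /-- the archimedean parameters -/
  μ : Fin m → ℂ
  re_μ_lt : ∀ j, (μ j).re < 1 / 2
  /-- the (analytically continued) `L`-function -/
  L : ℂ → ℂ
  /-- `L` is entire and of finite order in vertical strips, or `m = 1` and `L` is the Riemann zeta
  function -/
  regular : (Differentiable ℂ L ∧ ∀ σ₁ σ₂ : ℝ, ∃ (A : ℝ) (k : ℕ), ∀ s : ℂ, σ₁ ≤ s.re → s.re ≤ σ₂ →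
      ‖L s‖ ≤ Real.exp (A * (1 + ‖s‖) ^ k)) ∨
    (m = 1 ∧ N = 1 ∧ μ = 0 ∧ L = riemannZeta)
  /-- the functional equation `Λ(s) = ε N^{1/2 - s} conj Λ(1 - conj s)` for
  `Λ(s) = archFactor μ s * L s` -/
  functional : ∃ ε : ℂ, ‖ε‖ = 1 ∧ ∀ s : ℂ, archFactor μ s ≠ 0 →
    archFactor μ (1 - (starRingEnd ℂ) s) ≠ 0 →
    archFactor μ s * L s = ε * (N : ℂ) ^ (1 / 2 - s) *
      (starRingEnd ℂ) (archFactor μ (1 - (starRingEnd ℂ) s) * L (1 - (starRingEnd ℂ) s))

variable {m : ℕ}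

/-- The analytic conductor `C_π = N ∏_j (1 + |μ_j|)`. -/
noncomputable def LData.C (π : LData m) : ℝ := π.N * ∏ j, (1 + ‖π.μ j‖)

/-- The analytic conductor at height `t`, namely `C_π (1 + |t|)^m`. -/
noncomputable def LData.X (π : LData m) (t : ℝ) : ℝ := π.C * (1 + |t|) ^ m

/-- Molteni's bound to the right of the line `Re s = 1`, uniformly in the set `S`. It is known for
the set of all standard `L`-functions of degree `m`. -/
def Molteni (S : Set (LData m)) : Prop :=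
  ∀ ε : ℝ, 0 < ε → ∃ B : ℝ, ∀ π ∈ S, ∀ s : ℂ, 1 + ε ≤ s.re → ‖π.L s‖ ≤ B * π.C ^ ε

/-- The bound of the Grand Lindelof Hypothesis for the set `S`. -/
def GLH (S : Set (LData m)) : Prop :=
  ∀ ε : ℝ, 0 < ε → ∃ B : ℝ, ∀ π ∈ S, ∀ t : ℝ, ‖π.L (1 / 2 + t * I)‖ ≤ B * ((1 + |t|) * π.C) ^ ε

/-- The bound `|L(1/2 + it, π)| ≤ B X^a` with `X = C_π (1 + |t|)^m` and one constant `B` for all
`π ∈ S` and all real `t`. -/
def Bound (S : Set (LData m)) (a : ℝ) : Prop :=
  ∃ B : ℝ, ∀ π ∈ S, ∀ t : ℝ, ‖π.L (1 / 2 + t * I)‖ ≤ B * π.X t ^ a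

/-- Whenever `π ∈ S` and `X = C_π (1 + |t|)^m` is large enough, the interval `[t, t + η]` contains
at least `κ η log X` points `u` with `|L(1/2 + iu, π)| ≤ (C_π (1 + |u|)^m)^a` and with mutual
distances at least `r / log X`. -/
def GoodSamples (S : Set (LData m)) (a κ η r : ℝ) : Prop :=
  ∃ K : ℝ, ∀ π ∈ S, ∀ t : ℝ, K ≤ π.X t → ∃ Z : Finset ℝ,
    κ * η * Real.log (π.X t) ≤ Z.card ∧
    (∀ u ∈ Z, u ∈ Icc t (t + η) ∧ ‖π.L (1 / 2 + u * I)‖ ≤ π.X u ^ a) ∧
    ∀ u ∈ Z, ∀ v ∈ Z, u ≠ v → r / Real.log (π.X t) ≤ |u - v|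

/-- Whenever `π ∈ S` and `X = C_π (1 + |t|)^m` is large enough, the points `u` of the interval
`[t, t + η]` with `|L(1/2 + iu, π)| ≤ (C_π (1 + |u|)^m)^a` form a set of Lebesgue measure at least
`r`. -/
def GoodWindows (S : Set (LData m)) (a η r : ℝ) : Prop :=
  ∃ K : ℝ, ∀ π ∈ S, ∀ t : ℝ, K ≤ π.X t →
    ENNReal.ofReal r ≤ volume {u : ℝ | u ∈ Icc t (t + η) ∧
      ‖π.L (1 / 2 + u * I)‖ ≤ π.X u ^ a}

end Pool.Agent.H23.GLM
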