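import Pool.Agent.H23.GLM.GammaRatio
import Pool.Agent.H23.GLM.Defs

/-! Consequences of the functional equation for `L`-data. -/

set_option autoImplicit false

open Complex MeasureTheory Set Filter Topology

namespace Pool.Agent.H23.GLM

open Pool.Agent.H23.GLH

variable {m : ℕ}

lemma archFactor_ne_zero_iff (μ : Fin m → ℂ) (s : ℂ) :
    archFactor μ s ≠ 0 ↔ ∀ j, Gammaℝ (s - μ j) ≠ 0 := by
  unfold archFactor
  rw [Ne, Finset.prod_eq_zero_iff]
  push Not
  simp

lemma continuous_inv_arch (μ : Fin m → ℂ) : Continuous fun s => (archFactor μ s)⁻¹ := by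
  have h : (fun s => (archFactor μ s)⁻¹) = fun s => ∏ j, (Gammaℝ (s - μ j))⁻¹ := by
    funext s
    rw [archFactor, Finset.prod_inv_distrib]
  rw [h]
  refine continuous_finsetProd _ fun j _ => ?_
  exact differentiable_Gammaℝ_inv.continuous.comp (continuous_id.sub continuous_const)

lemma countable_arch_zero (μ : Fin m → ℂ) : {s : ℂ | archFactor μ s = 0}.Countable := by
  have h : {s : ℂ | archFactor μ s = 0} ⊆
      ⋃ j : Fin m, Set.range fun n : ℕ => μ j + -(2 * (n : ℂ)) := by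
    intro s hs
    have hs' : archFactor μ s = 0 := hs
    rw [archFactor, Finset.prod_eq_zero_iff] at hs'
    obtain ⟨j, _, hj⟩ := hs'
    rw [Gammaℝ_eq_zero_iff] at hj
    obtain ⟨n, hn⟩ := hj
    refine mem_iUnion.mpr ⟨j, n, ?_⟩
    simp only
    rw [← hn]; ring
  exact (Set.countable_iUnion fun j => Set.countable_range _).mono h

lemma dense_good (μ : Fin m → ℂ) :
    Dense {s : ℂ | archFactor μ s ≠ 0 ∧ archFactor μ (1 - (starRingEnd ℂ) s) ≠ 0} := by
  have h1 := countable_arch_zero μ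
  have h2 : {s : ℂ | archFactor μ (1 - (starRingEnd ℂ) s) = 0}.Countable := by
    have hinj : Function.Injective fun s : ℂ => 1 - (starRingEnd ℂ) s := by
      intro a b hab
      simp only [sub_right_inj] at hab
      exact (starRingEnd ℂ).injective hab
    exact h1.preimage_of_injOn hinj.injOn
  have h3 := (h1.union h2).dense_compl ℂ
  convert h3 using 1
  ext s
  simp only [mem_ofPred_eq, mem_compl_iff, mem_union, not_or]

/-- The functional equation without poles. -/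
lemma LData.functional' (π : LData m) (hL : Continuous π.L) : ∃ ε : ℂ, ‖ε‖ = 1 ∧ ∀ s : ℂ,
    π.L s * (starRingEnd ℂ) (archFactor π.μ (1 - (starRingEnd ℂ) s))⁻¹ =
      ε * (π.N : ℂ) ^ (1 / 2 - s) * (starRingEnd ℂ) (π.L (1 - (starRingEnd ℂ) s)) *
        (archFactor π.μ s)⁻¹ := by
  obtain ⟨ε, hε, hfe⟩ := π.functional
  refine ⟨ε, hε, fun s => ?_⟩
  have hN : (π.N : ℂ) ≠ 0 := by exact_mod_cast π.N_ne
  have hc : Continuous fun s : ℂ => 1 - (starRingEnd ℂ) s := continuous_const.sub continuous_conj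
  have c1 : Continuous fun s : ℂ =>
      π.L s * (starRingEnd ℂ) (archFactor π.μ (1 - (starRingEnd ℂ) s))⁻¹ :=
    hL.mul (continuous_conj.comp ((continuous_inv_arch π.μ).comp hc))
  have c2 : Continuous fun s : ℂ => ε * (π.N : ℂ) ^ (1 / 2 - s) *
      (starRingEnd ℂ) (π.L (1 - (starRingEnd ℂ) s)) * (archFactor π.μ s)⁻¹ := by
    refine ((continuous_const.mul ?_).mul (continuous_conj.comp (hL.comp hc))).mul
      (continuous_inv_arch π.μ)
    exact (continuous_const.sub continuous_id).const_cpow (Or.inl hN)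
  have key := Continuous.ext_on (dense_good π.μ) c1 c2 fun s hs => by
    have h := hfe s hs.1 hs.2
    have hs1 := hs.1
    have hs2 : (starRingEnd ℂ) (archFactor π.μ (1 - (starRingEnd ℂ) s)) ≠ 0 := by
      rw [Ne, map_eq_zero]; exact hs.2
    rw [map_mul] at h
    rw [map_inv₀]
    generalize (π.N : ℂ) ^ (1 / 2 - s) = P at h ⊢
    field_simp
    linear_combination h
  exact congrFun key s

lemma one_le_prod_one_add (μ : Fin m → ℂ) : 1 ≤ ∏ j, (1 + ‖μ j‖) := by
  calc (1:ℝ) = ∏ _j : Fin m, (1:ℝ) := by simp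
    _ ≤ _ := Finset.prod_le_prod (fun _ _ => zero_le_one) fun j _ => by
        linarith [norm_nonneg (μ j)]

lemma LData.one_le_N (π : LData m) : (1:ℝ) ≤ π.N := by
  exact_mod_cast Nat.one_le_iff_ne_zero.mpr π.N_ne

lemma LData.one_le_C (π : LData m) : 1 ≤ π.C :=
  one_le_mul_of_one_le_of_one_le π.one_le_N (one_le_prod_one_add π.μ)

lemma LData.one_le_X (π : LData m) (t : ℝ) : 1 ≤ π.X t :=
  one_le_mul_of_one_le_of_one_le π.one_le_C
    (one_le_pow₀ (by have := abs_nonneg t; linarith))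

lemma LData.C_le_X (π : LData m) (t : ℝ) : π.C ≤ π.X t := by
  have h1 := π.one_le_C
  have h2 : (1:ℝ) ≤ (1 + |t|) ^ m := one_le_pow₀ (by have := abs_nonneg t; linarith)
  unfold LData.X
  nlinarith

/-- The functional equation as an inequality. -/
theorem LData.refl (π : LData m) (hL : Continuous π.L) {x : ℝ} (hx : 0 < x) (hx1 : x < 1)
    (t : ℝ) : ‖π.L (1 / 2 - x + t * I)‖ ≤
      (2 * AR) ^ m * (π.C * (1 + |t|) ^ m) ^ x * ‖π.L (1 / 2 + x + t * I)‖ := by
  obtain ⟨ε, hε, hfe⟩ := π.functional' hL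
  have hA := AR_ge
  set s : ℂ := 1 / 2 - x + t * I with hs
  have hs' : 1 - (starRingEnd ℂ) s = 1 / 2 + x + t * I := by
    rw [hs, map_add, map_sub, map_mul, conj_I, conj_ofReal, conj_ofReal, map_div₀, map_one,
      map_ofNat]
    ring
  have h := hfe s
  rw [hs'] at h
  set z : Fin m → ℂ := fun j => 1 / 2 + t * I - π.μ j with hz
  have hzre : ∀ j, 0 ≤ (z j).re := by
    intro j
    have := π.re_μ_lt j
    simp [hz]
    linarith
  have e1 : ∀ j, 1 / 2 + x + t * I - π.μ j = z j + x := fun j => by rw [hz]; ring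
  have e2 : ∀ j, s - π.μ j = z j - x := fun j => by rw [hz, hs]; ring
  have hne : archFactor π.μ (1 / 2 + x + t * I) ≠ 0 := by
    rw [archFactor_ne_zero_iff]
    intro j
    rw [e1]
    refine Gammaℝ_ne_zero_of_re_pos ?_
    have := hzre j
    simp
    linarith
  have hnorm := congrArg norm h
  rw [norm_mul, RCLike.norm_conj, norm_mul, norm_mul, norm_mul, RCLike.norm_conj, hε, one_mul,
    norm_inv] at hnorm
  have hpos : 0 < ‖archFactor π.μ (1 / 2 + x + t * I)‖ := norm_pos_iff.mpr hne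
  have hN : ‖(π.N : ℂ) ^ (1 / 2 - s)‖ = (π.N : ℝ) ^ x := by
    rw [Complex.norm_natCast_cpow_of_pos (Nat.pos_of_ne_zero π.N_ne)]
    congr 1
    simp [hs]
  rw [hN] at hnorm
  have h2 : ‖π.L s‖ = (π.N : ℝ) ^ x * ‖π.L (1 / 2 + x + t * I)‖ *
      (‖archFactor π.μ (1 / 2 + x + t * I)‖ * ‖(archFactor π.μ s)⁻¹‖) := by
    have h5 : ‖π.L s‖ = (‖π.L s‖ * ‖archFactor π.μ (1 / 2 + x + t * I)‖⁻¹) *
        ‖archFactor π.μ (1 / 2 + x + t * I)‖ := by
      rw [inv_mul_cancel_right₀ hpos.ne']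
    rw [h5, hnorm]
    ring
  have h3 : ‖archFactor π.μ (1 / 2 + x + t * I)‖ * ‖(archFactor π.μ s)⁻¹‖ ≤
      ∏ j, (AR * (2 ^ x * ((1 + |t|) ^ x * (1 + ‖π.μ j‖) ^ x))) := by
    rw [archFactor, archFactor, ← Finset.prod_inv_distrib, norm_prod, norm_prod,
      ← Finset.prod_mul_distrib]
    refine Finset.prod_le_prod (fun j _ => by positivity) fun j _ => ?_
    rw [← norm_mul, e1, e2]
    refine (norm_Gammaℝ_ratio hx hx1 (hzre j)).trans ?_
    have h4 : 1 + ‖z j‖ ≤ 2 * ((1 + |t|) * (1 + ‖π.μ j‖)) := by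
      have h5 : ‖z j‖ ≤ 1 / 2 + |t| + ‖π.μ j‖ := by
        rw [hz]
        refine (norm_sub_le _ _).trans ?_
        have : ‖(1 / 2 : ℂ) + t * I‖ ≤ 1 / 2 + |t| := by
          refine (norm_add_le _ _).trans ?_
          simp
        linarith
      have h6 := abs_nonneg t
      have h7 := norm_nonneg (π.μ j)
      nlinarith [mul_nonneg h6 h7]
    have h8 : (1 + ‖z j‖) ^ x ≤ 2 ^ x * ((1 + |t|) ^ x * (1 + ‖π.μ j‖) ^ x) := by
      rw [← Real.mul_rpow (by positivity) (by positivity),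
        ← Real.mul_rpow (by norm_num) (by positivity)]
      exact Real.rpow_le_rpow (by positivity) h4 hx.le
    gcongr
  have h4 : ∏ j, (AR * (2 ^ x * ((1 + |t|) ^ x * (1 + ‖π.μ j‖) ^ x))) ≤
      (2 * AR) ^ m * (((1 + |t|) ^ m) ^ x * (∏ j, (1 + ‖π.μ j‖)) ^ x) := by
    rw [Finset.prod_mul_distrib, Finset.prod_mul_distrib, Finset.prod_mul_distrib,
      Finset.prod_const, Finset.prod_const, Finset.prod_const, Finset.card_univ, Fintype.card_fin]
    rw [Real.finsetProd_rpow _ _ fun j _ => by positivity]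
    have e3 : ((1 + |t|) ^ x) ^ m = ((1 + |t|) ^ m) ^ x := by
      rw [← Real.rpow_natCast, ← Real.rpow_mul (by positivity), mul_comm,
        Real.rpow_mul (by positivity), Real.rpow_natCast]
    rw [e3]
    have e4 : ((2:ℝ) ^ x) ^ m ≤ 2 ^ m := by
      have : (2:ℝ) ^ x ≤ 2 := by
        calc (2:ℝ) ^ x ≤ 2 ^ (1:ℝ) := Real.rpow_le_rpow_of_exponent_le (by norm_num) hx1.le
          _ = 2 := Real.rpow_one _
      gcongr
    have hP := one_le_prod_one_add π.μ
    have hP0 : 0 ≤ (∏ j, (1 + ‖π.μ j‖)) ^ x := by positivity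
    calc AR ^ m * (((2:ℝ) ^ x) ^ m * (((1 + |t|) ^ m) ^ x * (∏ j, (1 + ‖π.μ j‖)) ^ x))
        ≤ AR ^ m * (2 ^ m * (((1 + |t|) ^ m) ^ x * (∏ j, (1 + ‖π.μ j‖)) ^ x)) := by gcongr
      _ = _ := by rw [mul_pow]; ring
  have h5 := h3.trans h4
  have hP := one_le_prod_one_add π.μ
  have e5 : (π.C * (1 + |t|) ^ m) ^ x =
      (π.N : ℝ) ^ x * (((1 + |t|) ^ m) ^ x * (∏ j, (1 + ‖π.μ j‖)) ^ x) := by
    rw [LData.C, Real.mul_rpow (by positivity) (by positivity),
      Real.mul_rpow (by positivity) (by positivity)]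
    ring
  rw [h2, e5]
  have hL0 := norm_nonneg (π.L (1 / 2 + x + t * I))
  calc (π.N : ℝ) ^ x * ‖π.L (1 / 2 + x + t * I)‖ *
        (‖archFactor π.μ (1 / 2 + x + t * I)‖ * ‖(archFactor π.μ s)⁻¹‖)
      ≤ (π.N : ℝ) ^ x * ‖π.L (1 / 2 + x + t * I)‖ *
        ((2 * AR) ^ m * (((1 + |t|) ^ m) ^ x * (∏ j, (1 + ‖π.μ j‖)) ^ x)) := by gcongr
    _ = _ := by ring

end Pool.Agent.H23.GLM
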