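import Pool.Agent.H23.GLM.Conv
import Pool.Agent.H23.GLH.Sample
import Pool.Agent.H23.GLH.SampleFamily

/-! The sampling theorem for families of functions of any degree. -/

set_option autoImplicit false

open Complex MeasureTheory Set Filter Topology Metric

namespace Pool.Agent.H23.GLM

open Pool.Agent.H23.GLH

lemma qcomp {c : ℝ} (hc : 0 ≤ c) (n : ℕ) (t v : ℝ) :
    c * (1 + |t + v|) ^ n ≤ c * (1 + |t|) ^ n * (1 + |v|) ^ n := by
  have h1 := one_add_abs_add_le t v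
  have h2 : (1 + |t + v|) ^ n ≤ ((1 + |t|) * (1 + |v|)) ^ n := by gcongr
  rw [mul_pow] at h2
  calc c * (1 + |t + v|) ^ n ≤ c * ((1 + |t|) ^ n * (1 + |v|) ^ n) := by gcongr
    _ = _ := by ring

section point

variable {F : ℂ → ℂ} {c A A0 B a w δ : ℝ} {k n : ℕ}

/-- The estimate at one point. -/
theorem sample_point (hF : DifferentiableOn ℂ F {s | 0 < s.re}) (hc : 1 ≤ c) (hA : 1 ≤ A)
    (hgrow : ∀ s : ℂ, 1 / 4 ≤ s.re → ‖F s‖ ≤ A * (c * (1 + |s.im|) ^ n) ^ k)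
    (hrefl : ∀ x t : ℝ, 0 < x → x ≤ 1 / 4 → ‖F (1 / 2 - x + t * I)‖ ≤
      A * (c * (1 + |t|) ^ n) ^ x * ‖F (1 / 2 + x + t * I)‖)
    (ha : 0 ≤ a) (hak : a ≤ k) (hB : 1 ≤ B) (hw : 1 / 4 ≤ w) (hδ : 0 ≤ δ)
    (hline : ∀ t : ℝ, ‖F (1 / 2 + t * I)‖ ≤ B * (c * (1 + |t|) ^ n) ^ a)
    (hedge : ∀ s : ℂ, s.re = 1 / 2 + w → ‖F s‖ ≤ B * c ^ δ) (hA0 : 0 ≤ A0)
    (t₀ : ℝ) {R e γ E C₀ : ℝ} (hR : 0 < R) (hR4 : R ≤ 1 / 4) (he : 0 ≤ e) (hγ : 0 < γ)
    (Z : Finset ℝ) (hcard : 2 ≤ Z.card)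
    (hZ : ∀ v ∈ Z, |v| ≤ R ∧
      ‖F (1 / 2 + ((t₀ + v : ℝ) : ℂ) * I)‖ ≤ A0 * (c * (1 + |t₀ + v|) ^ n) ^ e)
    (hgap : ∀ u ∈ Z, ∀ v ∈ Z, u ≠ v → γ ≤ |u - v|)
    (hC₀ : 0 ≤ C₀)
    (hP : Z.card * (A0 * (2 ^ n * (c * (1 + |t₀|) ^ n)) ^ e *
      ((R + R) / (γ * ((Z.card - 1 : ℕ) : ℝ) / (2 * Real.exp 1))) ^ (Z.card - 1)) ≤
      C₀ * (c * (1 + |t₀|) ^ n) ^ E)
    (hE : 0 ≤ E) (hEa : E + |1 / 2 - (a - δ) / w| * R ≤ a) :
    ‖F (1 / 2 + t₀ * I)‖ ≤ (A * 2 ^ n * (4 ^ (n * k) * B) + C₀) *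
        (c * (1 + |t₀|) ^ n) ^ (a + (1 / 2 - (a - δ) / w) * (2 * R / Real.pi)) *
      Real.exp (-∑ v ∈ Z, Real.log (R / |v|)) + C₀ * (c * (1 + |t₀|) ^ n) ^ E := by
  classical
  set Q := c * (1 + |t₀|) ^ n with hQ
  have ht0 : 0 ≤ |t₀| := abs_nonneg _
  have ht1 : (1:ℝ) ≤ (1 + |t₀|) ^ n := one_le_pow₀ (by linarith)
  have hcQ : c ≤ Q := le_mul_of_one_le_right (by linarith) ht1
  have hQ1 : 1 ≤ Q := hc.trans hcQ
  have hQ0 : 0 < Q := by linarith
  have hA' : 0 ≤ A := by linarith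
  have hB0 : 0 < B := by linarith
  have hcomp : ∀ v : ℝ, c * (1 + |t₀ + v|) ^ n ≤ Q * (1 + |v|) ^ n := fun v =>
    qcomp (by linarith) n t₀ v
  set f : ℂ → ℂ := fun z => F (1 / 2 + t₀ * I + z) with hf
  have hU : IsOpen {s : ℂ | 0 < s.re} := isOpen_lt continuous_const Complex.continuous_re
  have hf_diff : ∀ z : ℂ, -(1 / 2) < z.re → DifferentiableAt ℂ f z := by
    intro z hz
    have h1 : 0 < (1 / 2 + t₀ * I + z : ℂ).re := by simp; linarith
    have h2 : DifferentiableAt ℂ F (1 / 2 + t₀ * I + z) :=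
      (hF _ h1).differentiableAt (hU.mem_nhds h1)
    exact h2.comp z ((differentiableAt_const _).add differentiableAt_id)
  have hfgrow : ∀ z : ℂ, -(1 / 4) ≤ z.re → ‖f z‖ ≤ A * (Q * (1 + |z.im|) ^ n) ^ k := by
    intro z hz
    have h1 := hgrow (1 / 2 + t₀ * I + z) (by simp; linarith)
    have h2 : (1 / 2 + t₀ * I + z : ℂ).im = t₀ + z.im := by simp
    rw [h2] at h1
    refine h1.trans ?_
    have := hcomp z.im
    gcongr
  have hfv : ∀ v : ℝ, f (v * I) = F (1 / 2 + ((t₀ + v : ℝ) : ℂ) * I) := by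
    intro v
    simp only [hf]
    congr 1
    push_cast
    ring
  have hfline : ∀ v : ℝ, ‖f (v * I)‖ ≤ B * (Q * (1 + |v|) ^ n) ^ a := by
    intro v
    rw [hfv]
    refine (hline _).trans ?_
    have := hcomp v
    gcongr
  have hfedge : ∀ z : ℂ, z.re = w → ‖f z‖ ≤ B * Q ^ δ := by
    intro z hz
    refine (hedge _ (by simp; exact hz)).trans ?_
    gcongr
  have hfrefl : ∀ x y : ℝ, 0 < x → x ≤ 1 / 4 → ‖f (((-x : ℝ) : ℂ) + y * I)‖ ≤
      A * (Q * (1 + |y|) ^ n) ^ x * ‖f (x + y * I)‖ := by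
    intro x y hx hx4
    have h3 := hrefl x (t₀ + y) hx hx4
    have e3 : (1 / 2 - x + ((t₀ + y : ℝ) : ℂ) * I : ℂ) =
        1 / 2 + t₀ * I + (((-x : ℝ) : ℂ) + y * I) := by push_cast; ring
    have e4 : (1 / 2 + x + ((t₀ + y : ℝ) : ℂ) * I : ℂ) =
        1 / 2 + t₀ * I + ((x : ℂ) + y * I) := by push_cast; ring
    rw [e3, e4] at h3
    refine h3.trans ?_
    have h5 := hcomp y
    have h6 : (c * (1 + |t₀ + y|) ^ n) ^ x ≤ (Q * (1 + |y|) ^ n) ^ x :=
      Real.rpow_le_rpow (by positivity) h5 hx.le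
    gcongr
  set K₁ := A * 2 ^ n * (4 ^ (n * k) * B) with hK₁
  have hK₁1 : 1 ≤ K₁ := by
    have h1 : 1 ≤ A * 2 ^ n := one_le_mul_of_one_le_of_one_le hA (one_le_pow₀ (by norm_num))
    have h2 : 1 ≤ 4 ^ (n * k) * B :=
      one_le_mul_of_one_le_of_one_le (one_le_pow₀ (by norm_num)) hB
    exact one_le_mul_of_one_le_of_one_le h1 h2
  set G : ℂ → ℂ := fun z => f z * cexp (((1 / 2 * Real.log Q : ℝ) : ℂ) * z) with hGdef
  have hnG : ∀ z : ℂ, ‖G z‖ = ‖f z‖ * Q ^ (1 / 2 * z.re) := by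
    intro z
    rw [hGdef]
    simp only
    rw [norm_mul, norm_cexp_real_mul hQ0]
  set s := 1 / 2 - (a - δ) / w with hs
  have hGb : ∀ z ∈ closedBall (0:ℂ) R, ‖G z‖ ≤ K₁ * Q ^ (a + s * |z.re|) := by
    intro z hz
    have hz' : ‖z‖ ≤ 1 / 4 := by
      have : ‖z‖ ≤ R := by simpa using hz
      linarith
    rw [hnG]
    exact two_sided hf_diff hQ1 hA hfgrow ha hak hB0 hw hfline hfedge hfrefl hz'
  set U : Set ℂ := {z : ℂ | -(1 / 2) < z.re} with hUdef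
  have hUo : IsOpen U := isOpen_lt continuous_const Complex.continuous_re
  have hsub : closedBall (0:ℂ) R ⊆ U := by
    intro z hz
    have h1 : ‖z‖ ≤ R := by simpa using hz
    have h2 := (abs_le.mp ((Complex.abs_re_le_norm z).trans h1)).1
    show -(1 / 2) < z.re
    linarith
  have hGd : DifferentiableOn ℂ G U := by
    intro z hz
    have h2 : DifferentiableAt ℂ
        (fun z : ℂ => cexp (((1 / 2 * Real.log Q : ℝ) : ℂ) * z)) z := by fun_prop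
    exact ((hf_diff z hz).mul h2).differentiableWithinAt
  have hinj : Function.Injective fun v : ℝ => (v : ℂ) * I := by
    intro u v huv
    simpa using huv
  set Z' : Finset ℂ := Z.image fun v : ℝ => (v : ℂ) * I with hZ'
  have hcard' : Z'.card = Z.card := Finset.card_image_of_injective _ hinj
  have hZ'B : ∀ z ∈ Z', z ∈ closedBall (0:ℂ) R := by
    intro z hz
    obtain ⟨v, hv, rfl⟩ := Finset.mem_image.mp hz
    have := (hZ v hv).1
    simpa using this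
  have hM : ∀ z ∈ Z', ‖G z‖ ≤ A0 * (2 ^ n * Q) ^ e := by
    intro z hz
    obtain ⟨v, hv, rfl⟩ := Finset.mem_image.mp hz
    obtain ⟨h1, h2⟩ := hZ v hv
    have hre : ((v : ℂ) * I).re = 0 := by simp
    rw [hnG, hre, mul_zero, Real.rpow_zero, mul_one, hfv]
    refine h2.trans ?_
    have h3 := hcomp v
    have h4 : Q * (1 + |v|) ^ n ≤ 2 ^ n * Q := by
      rw [mul_comm Q]
      gcongr
      linarith
    have h5 : (c * (1 + |t₀ + v|) ^ n) ^ e ≤ (2 ^ n * Q) ^ e :=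
      Real.rpow_le_rpow (by positivity) (h3.trans h4) he
    gcongr
  set g := γ * ((Z.card - 1 : ℕ) : ℝ) / (2 * Real.exp 1) with hg
  have hcard1 : (0:ℝ) < ((Z.card - 1 : ℕ) : ℝ) := by
    have : 0 < Z.card - 1 := by omega
    exact_mod_cast this
  have hg0 : 0 < g := by rw [hg]; positivity
  have hsep : ∀ j ∈ Z', g ^ (Z'.card - 1) ≤ ∏ i ∈ Z'.erase j, ‖j - i‖ := by
    intro j hj
    obtain ⟨v, hv, rfl⟩ := Finset.mem_image.mp hj
    have h1 := prod_dist_ge hγ.le Z hgap hv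
    rw [hcard']
    refine h1.trans (le_of_eq ?_)
    have h2 : Z'.erase ((v : ℂ) * I) = (Z.erase v).image fun v : ℝ => (v : ℂ) * I := by
      rw [Finset.image_erase hinj]
    rw [h2, Finset.prod_image fun x _ y _ hxy => hinj hxy]
    refine Finset.prod_congr rfl fun u _ => ?_
    rw [← sub_mul, norm_mul, Complex.norm_I, mul_one, ← Complex.ofReal_sub, Complex.norm_real,
      Real.norm_eq_abs]
  have hP' : Z'.card * (A0 * (2 ^ n * Q) ^ e * ((R + R) / g) ^ (Z'.card - 1)) ≤ C₀ * Q ^ E := by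
    rw [hcard']; exact hP
  have hcore := sample_core hQ1 hR hUo hsub hGd hK₁1 hGb Z' hZ'B hM hg0 hsep hC₀ hP' hE hEa
  have hG0 : ‖G 0‖ = ‖F (1 / 2 + t₀ * I)‖ := by
    rw [hnG]
    simp [hf]
  have hsum : ∑ z ∈ Z', Real.log (R / ‖z‖) = ∑ v ∈ Z, Real.log (R / |v|) := by
    rw [hZ', Finset.sum_image fun x _ y _ hxy => hinj hxy]
    refine Finset.sum_congr rfl fun v _ => ?_
    rw [norm_mul, Complex.norm_I, mul_one, Complex.norm_real, Real.norm_eq_abs]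
  rw [hG0, hsum] at hcore
  exact hcore

end point

section family

variable {ι : Type*} {F : ι → ℂ → ℂ} {c : ι → ℝ} {n : ℕ}

/-- Hypotheses on a family of functions of degree `n`. -/
structure Adm (F : ι → ℂ → ℂ) (c : ι → ℝ) (n : ℕ) (A : ℝ) (k : ℕ) : Prop where
  one_le_c : ∀ i, 1 ≤ c i
  one_le_A : 1 ≤ A
  diff : ∀ i, DifferentiableOn ℂ (F i) {s | 0 < s.re}
  grow : ∀ i, ∀ s : ℂ, 1 / 4 ≤ s.re → ‖F i s‖ ≤ A * (c i * (1 + |s.im|) ^ n) ^ k
  refl : ∀ i, ∀ x t : ℝ, 0 < x → x ≤ 1 / 4 → ‖F i (1 / 2 - x + t * I)‖ ≤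
      A * (c i * (1 + |t|) ^ n) ^ x * ‖F i (1 / 2 + x + t * I)‖
  edge : ∀ δ > 0, ∃ B : ℝ, ∀ (i : ι) (s : ℂ), s.re = 1 + δ → ‖F i s‖ ≤ B * c i ^ δ

/-- The bound with exponent `a` on the critical line for all members of the family. -/
def Bd (F : ι → ℂ → ℂ) (c : ι → ℝ) (n : ℕ) (a : ℝ) : Prop :=
  ∃ B : ℝ, ∀ (i : ι) (t : ℝ), ‖F i (1 / 2 + t * I)‖ ≤ B * (c i * (1 + |t|) ^ n) ^ a

/-- Sample points. -/
def Smp (F : ι → ℂ → ℂ) (c : ι → ℝ) (n : ℕ) (A0 e κ η m : ℝ) : Prop :=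
  ∃ K : ℝ, ∀ (i : ι) (t : ℝ), K ≤ c i * (1 + |t|) ^ n → ∃ Z : Finset ℝ,
    κ * η * Real.log (c i * (1 + |t|) ^ n) ≤ Z.card ∧
    (∀ u ∈ Z, u ∈ Icc t (t + η) ∧ ‖F i (1 / 2 + u * I)‖ ≤ A0 * (c i * (1 + |u|) ^ n) ^ e) ∧
    ∀ u ∈ Z, ∀ v ∈ Z, u ≠ v → m / Real.log (c i * (1 + |t|) ^ n) ≤ |u - v|

lemma q_ge_one {A : ℝ} {k : ℕ} (h : Adm F c n A k) (i : ι) (t : ℝ) :
    1 ≤ c i * (1 + |t|) ^ n := by
  have h1 := h.one_le_c i
  have h2 : (1:ℝ) ≤ (1 + |t|) ^ n := one_le_pow₀ (by have := abs_nonneg t; linarith)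
  exact one_le_mul_of_one_le_of_one_le h1 h2

lemma Bd.mono {A : ℝ} {k : ℕ} (h : Adm F c n A k) {a b : ℝ} (hab : a ≤ b)
    (hB : Bd F c n a) : Bd F c n b := by
  obtain ⟨B, hB⟩ := hB
  refine ⟨max B 0, fun i t => (hB i t).trans ?_⟩
  have h1 := q_ge_one h i t
  have h2 := Real.rpow_le_rpow_of_exponent_le h1 hab
  have h3 : 0 ≤ max B 0 := le_max_right _ _
  calc B * (c i * (1 + |t|) ^ n) ^ a ≤ max B 0 * (c i * (1 + |t|) ^ n) ^ a := by
        have : 0 ≤ (c i * (1 + |t|) ^ n) ^ a := by positivity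
        gcongr
        exact le_max_left _ _
    _ ≤ _ := by gcongr

/-- The sample points near `t₀`, for large conductor. -/
lemma collect {i : ι} {t₀ Λ A0 e κ η η' m K : ℝ} {J : ℕ} (hc : 1 ≤ c i) (hJ : 0 < J) (hη : 0 < η)
    (hηη' : η < η') (hJη : J * η' ≤ 1 / 4) (hκ : 0 < κ) (hm : 0 < m)
    (hS : ∀ t : ℝ, K ≤ c i * (1 + |t|) ^ n → ∃ Z : Finset ℝ,
      κ * η * Real.log (c i * (1 + |t|) ^ n) ≤ Z.card ∧
      (∀ u ∈ Z, u ∈ Icc t (t + η) ∧ ‖F i (1 / 2 + u * I)‖ ≤ A0 * (c i * (1 + |u|) ^ n) ^ e) ∧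
      ∀ u ∈ Z, ∀ v ∈ Z, u ≠ v → m / Real.log (c i * (1 + |t|) ^ n) ≤ |u - v|)
    (hΛ : Λ = Real.log (c i * (1 + |t₀|) ^ n)) (hΛ2 : 2 * (n + 1) ≤ Λ)
    (hΛgap : m / (2 * Λ) ≤ η' - η)
    (hK : 2 ^ n * K ≤ c i * (1 + |t₀|) ^ n) {N : ℕ}
    (hN : N = ⌈κ * η * (Λ - n * Real.log 2)⌉₊) :
    ∃ Z : Finset ℝ, Z.card = 2 * J * N ∧
      (∀ v ∈ Z, |v| ≤ J * η' ∧ 0 < |v| ∧
        ‖F i (1 / 2 + ((t₀ + v : ℝ) : ℂ) * I)‖ ≤ A0 * (c i * (1 + |t₀ + v|) ^ n) ^ e) ∧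
      (∀ u ∈ Z, ∀ v ∈ Z, u ≠ v → m / (2 * Λ) ≤ |u - v|) ∧
      2 * N * ell J ≤ ∑ v ∈ Z, Real.log (J * η' / |v|) := by
  classical
  set Q := c i * (1 + |t₀|) ^ n with hQ
  have ht0 := abs_nonneg t₀
  have ht1 : (1:ℝ) ≤ (1 + |t₀|) ^ n := one_le_pow₀ (by linarith)
  have hQ1 : 1 ≤ Q := one_le_mul_of_one_le_of_one_le hc ht1
  have hQ0 : 0 < Q := by linarith
  have hlog2 := Real.log_two_lt_d9
  have hlog2' := Real.log_two_gt_d9
  have hn0 : (0:ℝ) ≤ n := Nat.cast_nonneg n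
  have hnlog : (n : ℝ) * Real.log 2 ≤ n := by nlinarith
  have hη'0 : 0 < η' := by linarith
  refine union_windows hJ hη hηη' hΛgap _ ?_
  intro p hp
  set x := wstart η η' p with hx
  have hxabs : |x| ≤ 1 / 4 := by
    have h1 := (abs_window hη hηη' (p := p) (v := x) ⟨le_rfl, by linarith⟩).1
    have h2 : (p.1 : ℝ) + 1 ≤ J := by exact_mod_cast hp
    calc |x| ≤ (p.1 + 1) * η' := h1
      _ ≤ J * η' := by gcongr
      _ ≤ 1 / 4 := hJη
  have h2n : (0:ℝ) < 2 ^ n := by positivity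
  have hlow : Q / 2 ^ n ≤ c i * (1 + |t₀ + x|) ^ n := by
    have h1 : |t₀| ≤ |t₀ + x| + |x| := by
      have := abs_sub (t₀ + x) x
      rwa [add_sub_cancel_right] at this
    have h2 : (1 + |t₀|) ≤ 2 * (1 + |t₀ + x|) := by linarith [abs_nonneg (t₀ + x)]
    rw [div_le_iff₀ h2n, hQ, mul_assoc, ← mul_pow]
    have h3 : (1 + |t₀|) ^ n ≤ ((1 + |t₀ + x|) * 2) ^ n := by
      apply pow_le_pow_left₀ (by linarith)
      linarith
    gcongr
  have hup : c i * (1 + |t₀ + x|) ^ n ≤ 2 ^ n * Q := by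
    refine (qcomp (by linarith) n t₀ x).trans ?_
    rw [mul_comm _ Q, ← hQ]
    gcongr
    linarith
  have hpos : 0 < c i * (1 + |t₀ + x|) ^ n := by positivity
  have hlogl : Λ - n * Real.log 2 ≤ Real.log (c i * (1 + |t₀ + x|) ^ n) := by
    rw [hΛ, ← Real.log_pow, ← Real.log_div hQ0.ne' h2n.ne']
    exact Real.log_le_log (by positivity) hlow
  have hlogu : Real.log (c i * (1 + |t₀ + x|) ^ n) ≤ 2 * Λ := by
    have : Real.log (c i * (1 + |t₀ + x|) ^ n) ≤ Real.log (2 ^ n * Q) :=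
      Real.log_le_log hpos hup
    rw [Real.log_mul h2n.ne' hQ0.ne', ← hΛ, Real.log_pow] at this
    linarith
  obtain ⟨W, hW1, hW2, hW3⟩ := hS (t₀ + x) (by
    refine le_trans ?_ hlow
    rw [le_div_iff₀ h2n, mul_comm]
    exact hK)
  have hNW : N ≤ W.card := by
    rw [hN]
    apply Nat.ceil_le.mpr
    refine le_trans ?_ hW1
    have : 0 ≤ κ * η := by positivity
    gcongr
  obtain ⟨W', hW's, hW'c⟩ := Finset.exists_subset_card_eq hNW
  have hinj : Function.Injective fun u : ℝ => u - t₀ := sub_left_injective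
  refine ⟨W'.image fun u : ℝ => u - t₀, ?_, ?_, ?_⟩
  · rw [Finset.card_image_of_injective _ hinj, hW'c]
  · intro v hv
    obtain ⟨u, hu, rfl⟩ := Finset.mem_image.mp hv
    obtain ⟨⟨h1, h2⟩, h3⟩ := hW2 u (hW's hu)
    refine ⟨⟨by linarith, by linarith⟩, ?_⟩
    have e1 : t₀ + (u - t₀) = u := by ring
    rw [e1]
    exact h3
  · intro v hv v' hv' hne
    obtain ⟨u, hu, rfl⟩ := Finset.mem_image.mp hv
    obtain ⟨u', hu', rfl⟩ := Finset.mem_image.mp hv'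
    have h1 := hW3 u (hW's hu) u' (hW's hu') (fun h => hne (by rw [h]))
    have e1 : u - t₀ - (u' - t₀) = u - u' := by ring
    rw [e1]
    refine le_trans ?_ h1
    have h2 : 0 < Real.log (c i * (1 + |t₀ + x|) ^ n) := by linarith
    gcongr

theorem sample_family_step {A A0 B1 e κ η η' m a w δ : ℝ} {k J : ℕ} (h : Adm F c n A k)
    (hδ : 0 ≤ δ)
    (hedge : ∀ (i : ι) (s : ℂ), s.re = 1 / 2 + w → ‖F i s‖ ≤ B1 * c i ^ δ) (hw : 1 / 4 ≤ w)
    (hJ : 0 < J)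
    (hη : 0 < η) (hηη' : η < η') (hη'2 : η' ≤ 2 * η) (hJη : J * η' ≤ 1 / 4) (he : 0 ≤ e)
    (hκ : 0 < κ) (hκ1 : κ ≤ 1) (hm : 0 < m) (hm1 : m ≤ 1) (hS : Smp F c n A0 e κ η m)
    (ha : 0 ≤ a) (hak : a ≤ k) (hEa : Eexp e κ η m J + |1 / 2 - (a - δ) / w| * (J * η') ≤ a)
    (hB : Bd F c n a) :
    Bd F c n (max (Eexp e κ η m J)
      (a + (1 / 2 - (a - δ) / w) * (2 * (J * η') / Real.pi) - 2 * κ * η * ell J)) := by
  obtain ⟨B0, hB⟩ := hB
  obtain ⟨K, hK⟩ := hS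
  set B := max (max B0 B1) 1 with hBdef
  have hB1 : 1 ≤ B := le_max_right _ _
  have hB0B : B0 ≤ B := (le_max_left _ _).trans (le_max_left _ _)
  have hB1B : B1 ≤ B := (le_max_right _ _).trans (le_max_left _ _)
  set A0' := max A0 0 with hA0'
  have hA0'0 : 0 ≤ A0' := le_max_right _ _
  have hA := h.one_le_A
  have hη'0 : 0 < η' := by linarith
  have hJ0 : (0:ℝ) < J := by exact_mod_cast hJ
  have hn0 : (0:ℝ) ≤ n := Nat.cast_nonneg n
  have hR0 : 0 < J * η' := by positivity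
  set E := Eexp e κ η m J with hEdef
  have hE0 : 0 ≤ E := Eexp_nonneg he hκ hκ1 hη hm hm1
  set s := 1 / 2 - (a - δ) / w with hs
  set a' := max E (a + s * (2 * (J * η') / Real.pi) - 2 * κ * η * ell J) with ha'
  have ha'0 : 0 ≤ a' := hE0.trans (le_max_left _ _)
  set K₁ := A * 2 ^ n * (4 ^ (n * k) * B) with hK₁
  set C₀ := A0' * (2 ^ n) ^ e with hC₀
  have hC₀0 : 0 ≤ C₀ := by positivity
  have hA1 : 0 ≤ A := by linarith
  have hK₁0 : 0 ≤ K₁ := by positivity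
  set Λ₀ := 2 * (n + 1) + 2 / (κ * η) + 1 / (η' - η) + Real.log (2 ^ n * max K 1) with hΛ₀
  have hθ : 0 < η' - η := by linarith
  have hmaxK : 1 ≤ max K 1 := le_max_right _ _
  have h2n1 : (1:ℝ) ≤ 2 ^ n := one_le_pow₀ (by norm_num)
  have hKm : 1 ≤ 2 ^ n * max K 1 := one_le_mul_of_one_le_of_one_le h2n1 hmaxK
  have hlogK : 0 ≤ Real.log (2 ^ n * max K 1) := Real.log_nonneg hKm
  have hκη : 0 < κ * η := by positivity
  have hΛ₀0 : 0 ≤ Λ₀ := by positivity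
  set X := Real.exp (2 * κ * η * (n * Real.log 2) * ell J) with hX
  have hell := ell_nonneg J
  have hline : ∀ (i : ι) (t : ℝ), ‖F i (1 / 2 + t * I)‖ ≤ B * (c i * (1 + |t|) ^ n) ^ a := by
    intro i t
    refine (hB i t).trans ?_
    have h1 := q_ge_one h i t
    gcongr
  have hedge' : ∀ (i : ι) (s : ℂ), s.re = 1 / 2 + w → ‖F i s‖ ≤ B * c i ^ δ := by
    intro i s hs
    refine (hedge i s hs).trans ?_
    have h1 := h.one_le_c i
    gcongr
  refine ⟨B * Real.exp (Λ₀ * a) + ((K₁ + C₀) * X + C₀), fun i t₀ => ?_⟩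
  have hQ1 := q_ge_one h i t₀
  set Q := c i * (1 + |t₀|) ^ n with hQ
  have hQ0 : 0 < Q := by linarith
  have hQa' : 1 ≤ Q ^ a' := Real.one_le_rpow hQ1 ha'0
  set Λ := Real.log Q with hΛ
  rcases lt_or_ge Λ Λ₀ with hsmall | hlarge
  · have h1 : Q ^ a ≤ Real.exp (Λ₀ * a) := by
      rw [Real.rpow_def_of_pos hQ0]
      apply Real.exp_le_exp.mpr
      gcongr
    calc ‖F i (1 / 2 + t₀ * I)‖ ≤ B * Q ^ a := hline i t₀
      _ ≤ B * Real.exp (Λ₀ * a) := by gcongr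
      _ ≤ B * Real.exp (Λ₀ * a) + ((K₁ + C₀) * X + C₀) := by
          have : 0 ≤ (K₁ + C₀) * X + C₀ := by positivity
          linarith
      _ = (B * Real.exp (Λ₀ * a) + ((K₁ + C₀) * X + C₀)) * 1 := (mul_one _).symm
      _ ≤ _ := by gcongr
  · have hlog2 := Real.log_two_lt_d9
    have hlog2' := Real.log_two_gt_d9
    have p1 : 0 < 2 / (κ * η) := by positivity
    have p2 : 0 < 1 / (η' - η) := by positivity
    have hΛ2 : 2 * ((n : ℝ) + 1) ≤ Λ := by rw [hΛ₀] at hlarge; linarith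
    have hΛpos : 0 < Λ := by linarith
    have hnlog : (n : ℝ) * Real.log 2 ≤ n := by nlinarith
    have hnlog0 : 0 ≤ (n : ℝ) * Real.log 2 := by positivity
    have hΛκ : 2 ≤ κ * η * Λ := by
      have h1 : 2 / (κ * η) ≤ Λ := by
        rw [hΛ₀] at hlarge
        have : 0 ≤ 2 * ((n : ℝ) + 1) := by positivity
        linarith
      rw [div_le_iff₀ hκη] at h1
      linarith
    have hΛgap : m / (2 * Λ) ≤ η' - η := by
      have h1 : 1 / (η' - η) ≤ Λ := by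
        rw [hΛ₀] at hlarge
        have : 0 ≤ 2 * ((n : ℝ) + 1) := by positivity
        linarith
      rw [div_le_iff₀ hθ] at h1
      rw [div_le_iff₀ (by linarith)]
      nlinarith
    have hKQ : 2 ^ n * K ≤ Q := by
      have h1 : Real.log (2 ^ n * max K 1) ≤ Λ := by
        rw [hΛ₀] at hlarge
        have : 0 ≤ 2 * ((n : ℝ) + 1) := by positivity
        linarith
      have h2 : 2 ^ n * max K 1 ≤ Q := (Real.log_le_log_iff (by linarith) hQ0).mp h1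
      have h3 : K ≤ max K 1 := le_max_left _ _
      have h4 : 2 ^ n * K ≤ 2 ^ n * max K 1 := by gcongr
      linarith
    have hS' : ∀ t : ℝ, K ≤ c i * (1 + |t|) ^ n → ∃ Z : Finset ℝ,
        κ * η * Real.log (c i * (1 + |t|) ^ n) ≤ Z.card ∧
        (∀ u ∈ Z, u ∈ Icc t (t + η) ∧
          ‖F i (1 / 2 + u * I)‖ ≤ A0' * (c i * (1 + |u|) ^ n) ^ e) ∧
        ∀ u ∈ Z, ∀ v ∈ Z, u ≠ v → m / Real.log (c i * (1 + |t|) ^ n) ≤ |u - v| := by
      intro t ht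
      obtain ⟨Z, h1, h2, h3⟩ := hK i t ht
      refine ⟨Z, h1, fun u hu => ⟨(h2 u hu).1, (h2 u hu).2.trans ?_⟩, h3⟩
      have : A0 ≤ A0' := le_max_left _ _
      have h4 := q_ge_one h i u
      gcongr
    set N := ⌈κ * η * (Λ - n * Real.log 2)⌉₊ with hN
    obtain ⟨Z, hZc, hZ1, hZ2, hZ3⟩ := collect (F := F) (c := c) (i := i) (t₀ := t₀) (Λ := Λ)
      (A0 := A0') (e := e) (m := m) (K := K) (N := N) (h.one_le_c i) hJ hη hηη' hJη hκ hm
      hS' hΛ hΛ2 hΛgap hKQ hN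
    have hNlow : κ * η * (Λ - n * Real.log 2) ≤ N := Nat.le_ceil _
    have hNup : (N : ℝ) < κ * η * (Λ - n * Real.log 2) + 1 := Nat.ceil_lt_add_one (by
      have : 0 ≤ Λ - n * Real.log 2 := by linarith
      positivity)
    have hN1 : κ * η * Λ / 2 ≤ N := by
      refine le_trans ?_ hNlow
      have : Λ / 2 ≤ Λ - n * Real.log 2 := by linarith
      calc κ * η * Λ / 2 = κ * η * (Λ / 2) := by ring
        _ ≤ _ := by gcongr
    have hN2 : (N : ℝ) ≤ 2 * (κ * η * Λ) := by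
      have : κ * η * (Λ - n * Real.log 2) ≤ κ * η * Λ := by
        have : Λ - n * Real.log 2 ≤ Λ := by linarith
        gcongr
      linarith
    have hNpos : 1 ≤ N := by
      have : (0:ℝ) < N := by linarith
      exact_mod_cast this
    have hcard2 : 2 ≤ Z.card := by
      rw [hZc, mul_assoc]
      have : 1 ≤ J * N := Nat.one_le_iff_ne_zero.mpr (by positivity)
      omega
    have hinterp := interp_bound (M := A0' * (2 ^ n * Q) ^ e) (n := Z.card) hJ hη hη'0 hη'2 hκ hκ1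
      hm hm1 (by positivity) (by linarith) hN1 hN2 hNpos hZc hΛpos
    have hP : Z.card * (A0' * (2 ^ n * Q) ^ e *
        ((J * η' + J * η') / (m / (2 * Λ) * ((Z.card - 1 : ℕ) : ℝ) / (2 * Real.exp 1))) ^
          (Z.card - 1)) ≤ C₀ * Q ^ E := by
      refine hinterp.trans (le_of_eq ?_)
      rw [hEdef, Eexp, Real.rpow_add hQ0, Real.mul_rpow (by positivity) hQ0.le, hC₀,
        Real.rpow_def_of_pos hQ0 (4 * J * κ * η * Real.log (32 * Real.exp 1 ^ 2 / (m * κ))),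
        ← hΛ]
      rw [mul_comm Λ]
      ring
    have hpt := sample_point (h.diff i) (h.one_le_c i) hA (h.grow i) (h.refl i) ha hak hB1
      hw hδ (hline i) (hedge' i) hA0'0 t₀ (R := J * η') (e := e)
      (γ := m / (2 * Λ)) (E := E) (C₀ := C₀) hR0 hJη he (by positivity) Z hcard2
      (fun v hv => ⟨(hZ1 v hv).1, (hZ1 v hv).2.2⟩) hZ2 hC₀0 hP hE0 hEa
    rw [← hQ, ← hs, ← hK₁] at hpt
    have hexp : Real.exp (-∑ v ∈ Z, Real.log (J * η' / |v|)) ≤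
        X * Q ^ (-(2 * κ * η * ell J)) := by
      rw [hX, Real.rpow_def_of_pos hQ0, ← Real.exp_add]
      apply Real.exp_le_exp.mpr
      have h1 : 2 * (κ * η * (Λ - n * Real.log 2)) * ell J ≤ 2 * N * ell J := by gcongr
      rw [← hΛ]
      calc -∑ v ∈ Z, Real.log (J * η' / |v|) ≤
            -(2 * (κ * η * (Λ - n * Real.log 2)) * ell J) := by
            linarith
        _ = _ := by ring
    have hQE : Q ^ E ≤ Q ^ a' := Real.rpow_le_rpow_of_exponent_le hQ1 (le_max_left _ _)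
    have hQa2 : Q ^ (a + s * (2 * (J * η') / Real.pi)) * Q ^ (-(2 * κ * η * ell J)) ≤ Q ^ a' := by
      rw [← Real.rpow_add hQ0]
      apply Real.rpow_le_rpow_of_exponent_le hQ1
      refine le_trans (le_of_eq ?_) (le_max_right _ _)
      ring
    calc ‖F i (1 / 2 + t₀ * I)‖ ≤ (K₁ + C₀) * Q ^ (a + s * (2 * (J * η') / Real.pi)) *
          Real.exp (-∑ v ∈ Z, Real.log (J * η' / |v|)) + C₀ * Q ^ E := hpt
      _ ≤ (K₁ + C₀) * Q ^ (a + s * (2 * (J * η') / Real.pi)) *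
          (X * Q ^ (-(2 * κ * η * ell J))) + C₀ * Q ^ E := by gcongr
      _ = (K₁ + C₀) * X * (Q ^ (a + s * (2 * (J * η') / Real.pi)) *
          Q ^ (-(2 * κ * η * ell J))) + C₀ * Q ^ E := by ring
      _ ≤ (K₁ + C₀) * X * Q ^ a' + C₀ * Q ^ a' := by gcongr
      _ = ((K₁ + C₀) * X + C₀) * Q ^ a' := by ring
      _ ≤ _ := by
          have : 0 ≤ B * Real.exp (Λ₀ * a) := by positivity
          exact mul_le_mul_of_nonneg_right (by linarith) (by positivity)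

/-- The limit of the improvement steps. -/
theorem exponent_inf {A A0 B1 e κ η η' m w δ b : ℝ} {k J : ℕ} (h : Adm F c n A k)
    (hδ : 0 ≤ δ) (hδk : δ ≤ k)
    (hedge : ∀ (i : ι) (s : ℂ), s.re = 1 / 2 + w → ‖F i s‖ ≤ B1 * c i ^ δ) (hw : 1 / 4 ≤ w)
    (hJ : 0 < J)
    (hη : 0 < η) (hηη' : η < η') (hη'2 : η' ≤ 2 * η) (hJη : J * η' ≤ 1 / 4) (he : 0 ≤ e)
    (hκ : 0 < κ) (hκ1 : κ ≤ 1) (hm : 0 < m) (hm1 : m ≤ 1) (hS : Smp F c n A0 e κ η m)
    (hb1 : Eexp e κ η m J + (1 / 2 + 4 * k) * (J * η') < b)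
    (hb2 : δ + w * (1 / 2 - Real.pi * κ * η * ell J / (J * η')) < b) : Bd F c n b := by
  have hpi := Real.pi_pos
  have hE0 : 0 ≤ Eexp e κ η m J := Eexp_nonneg he hκ hκ1 hη hm hm1
  have hη'0 : 0 < η' := by linarith
  have hJ0 : (0:ℝ) < J := by exact_mod_cast hJ
  have hR0 : 0 < J * η' := by positivity
  set R := J * η' with hR
  set S := {a : ℝ | 0 ≤ a ∧ a ≤ k ∧ Bd F c n a} with hSdef
  have hk0 : (0:ℝ) ≤ k := Nat.cast_nonneg k
  have hkS : (k : ℝ) ∈ S := by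
    refine ⟨hk0, le_rfl, A, fun i t => ?_⟩
    have := h.grow i (1 / 2 + t * I) (by simp; norm_num)
    simpa using this
  have hbdd : BddBelow S := ⟨0, fun a ha => ha.1⟩
  set x := sInf S with hx
  by_contra hcon
  have hbx : b ≤ x := by
    by_contra hlt
    push Not at hlt
    obtain ⟨a, haS, hab⟩ := exists_lt_of_csInf_lt (s := S) ⟨_, hkS⟩ (hx ▸ hlt)
    exact hcon (haS.2.2.mono h hab.le)
  have hxk : x ≤ k := csInf_le hbdd hkS
  have hslope : ∀ a : ℝ, 0 ≤ a → a ≤ k → |1 / 2 - (a - δ) / w| ≤ 1 / 2 + 4 * k := by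
    intro a ha hak
    have hw0 : 0 < w := by linarith
    have h1 : (a - δ) / w ≤ 4 * k := by
      rw [div_le_iff₀ hw0]
      nlinarith
    have h2 : -(4 * (k:ℝ)) ≤ (a - δ) / w := by
      rw [le_div_iff₀ hw0]
      nlinarith
    rw [abs_le]
    constructor <;> linarith
  have hstep : ∀ a ∈ S, x ≤ a + (1 / 2 - (a - δ) / w) * (2 * R / Real.pi) -
      2 * κ * η * ell J := by
    intro a haS
    obtain ⟨ha0, hak, hBa⟩ := haS
    have hxa : x ≤ a := csInf_le hbdd ⟨ha0, hak, hBa⟩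
    have h1 : Eexp e κ η m J + |1 / 2 - (a - δ) / w| * R ≤ a := by
      have := hslope a ha0 hak
      have : |1 / 2 - (a - δ) / w| * R ≤ (1 / 2 + 4 * k) * R := by gcongr
      linarith
    have h2 := sample_family_step h hδ hedge hw hJ hη hηη' hη'2 hJη he hκ hκ1 hm hm1 hS ha0 hak
      h1 hBa
    by_contra hlt
    push Not at hlt
    have hEx : Eexp e κ η m J < x := by
      have : 0 ≤ (1 / 2 + 4 * (k:ℝ)) * R := by positivity
      linarith
    have h3 : max (Eexp e κ η m J)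
        (a + (1 / 2 - (a - δ) / w) * (2 * R / Real.pi) - 2 * κ * η * ell J) < x := max_lt hEx hlt
    have h4 : max (Eexp e κ η m J)
        (a + (1 / 2 - (a - δ) / w) * (2 * R / Real.pi) - 2 * κ * η * ell J) ∈ S :=
      ⟨hE0.trans (le_max_left _ _), (h3.le.trans hxk), h2⟩
    exact absurd (csInf_le hbdd h4) (not_le.mpr h3)
  have hmain : 0 ≤ (1 / 2 - (x - δ) / w) * (2 * R / Real.pi) - 2 * κ * η * ell J := by
    apply le_of_forall_pos_le_add
    intro δ' hδ'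
    obtain ⟨a, haS, hab⟩ := exists_lt_of_csInf_lt (s := S) ⟨_, hkS⟩
      (show sInf S < x + δ' by rw [← hx]; linarith)
    have h1 := hstep a haS
    have hxa : x ≤ a := csInf_le hbdd haS
    have h2 : (x - δ) / w ≤ (a - δ) / w := by
      have : 0 < w := by linarith
      gcongr
    have h3 : (1 / 2 - (a - δ) / w) * (2 * R / Real.pi) ≤
        (1 / 2 - (x - δ) / w) * (2 * R / Real.pi) := by
      have : 0 ≤ 2 * R / Real.pi := by positivity
      gcongr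
    linarith
  have hw0 : 0 < w := by linarith
  have h5 : x ≤ δ + w * (1 / 2 - Real.pi * κ * η * ell J / R) := by
    have h6 : (x - δ) / w ≤ 1 / 2 - Real.pi * κ * η * ell J / R := by
      have h7 : 2 * κ * η * ell J ≤ (1 / 2 - (x - δ) / w) * (2 * R / Real.pi) := by linarith
      have h8 : 2 * κ * η * ell J * (Real.pi / (2 * R)) ≤ 1 / 2 - (x - δ) / w := by
        calc 2 * κ * η * ell J * (Real.pi / (2 * R))
            ≤ (1 / 2 - (x - δ) / w) * (2 * R / Real.pi) * (Real.pi / (2 * R)) := by gcongr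
          _ = 1 / 2 - (x - δ) / w := by field_simp
      have h9 : 2 * κ * η * ell J * (Real.pi / (2 * R)) = Real.pi * κ * η * ell J / R := by
        field_simp
      linarith
    rw [div_le_iff₀ hw0, mul_comm] at h6
    linarith
  linarith

/-- **Sampling theorem for families of degree `n`.** -/
theorem family_sampling {A A0 e κ : ℝ} {k : ℕ} (h : Adm F c n A k) (hk : 1 ≤ k)
    (he : 0 ≤ e) (hκ : 0 < κ) (hκ1 : κ ≤ 1)
    (hS : ∀ ε > 0, ∃ η > 0, η ≤ ε ∧ Smp F c n A0 (e + ε) κ η (Real.exp (-(ε / η)))) :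
    ∀ ε > 0, Bd F c n (max e ((1 - 2 * Real.pi * κ) / 4) + ε) := by
  intro ε₀ hε₀
  have hpi := Real.pi_pos
  set τ := ε₀ / (2 * Real.pi * κ) with hτ
  have hτ0 : 0 < τ := by positivity
  obtain ⟨J, hJ, hJr⟩ := ell_ratio hτ0
  have hJ0 : (0:ℝ) < J := by exact_mod_cast hJ
  set δ := min (ε₀ / 8) 1 with hδ
  have hδ0 : 0 < δ := by rw [hδ]; positivity
  have hδ1 : δ ≤ ε₀ / 8 := min_le_left _ _
  have hδk : δ ≤ (k : ℝ) := (min_le_right _ _).trans (by exact_mod_cast hk)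
  obtain ⟨B1, hB1⟩ := h.edge δ hδ0
  have he1 : 1 ≤ Real.exp 1 := Real.one_le_exp (by norm_num)
  set L0 := Real.log (32 * Real.exp 1 ^ 2 / κ) with hL0
  have hL00 : 0 ≤ L0 := by
    apply Real.log_nonneg
    rw [one_le_div hκ]
    nlinarith
  set W := 1 + 4 * J * κ * (L0 + 1) + (1 / 2 + 4 * k) * (J + 1) with hW
  have hW0 : 0 < W := by positivity
  set ε := min (ε₀ / (2 * W)) (1 / (4 * (J + 1))) with hε
  have hεpos : 0 < ε := by
    rw [hε]
    apply lt_min <;> positivity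
  obtain ⟨η, hη, hηε, hSη⟩ := hS ε hεpos
  set η' := (1 + 1 / J) * η with hη'
  have hJη' : J * η' = (J + 1) * η := by rw [hη']; field_simp
  have hηη' : η < η' := by
    rw [hη']
    have : 0 < 1 / (J : ℝ) := by positivity
    nlinarith
  have hη'2 : η' ≤ 2 * η := by
    rw [hη']
    have : 1 / (J : ℝ) ≤ 1 := by
      rw [div_le_one hJ0]
      exact_mod_cast hJ
    gcongr
    linarith
  have hR4 : J * η' ≤ 1 / 4 := by
    rw [hJη']
    calc ((J : ℝ) + 1) * η ≤ (J + 1) * (1 / (4 * (J + 1))) := by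
          gcongr
          exact hηε.trans (min_le_right _ _)
      _ = 1 / 4 := by field_simp
  set m := Real.exp (-(ε / η)) with hm
  have hm0 : 0 < m := Real.exp_pos _
  have hm1 : m ≤ 1 := by
    rw [hm]
    apply Real.exp_le_one_iff.mpr
    have : 0 ≤ ε / η := by positivity
    linarith
  refine exponent_inf (w := 1 / 2 + δ) h (B1 := B1) hδ0.le hδk
    (fun i s hs => hB1 i s (by rw [hs]; ring)) (by linarith) hJ hη hηη'
    hη'2 hR4 (add_nonneg he hεpos.le) hκ hκ1 hm0 hm1 hSη ?_ ?_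
  · have hlog : Real.log (32 * Real.exp 1 ^ 2 / (m * κ)) = L0 + ε / η := by
      rw [hL0, mul_comm m κ, ← div_div, Real.log_div (by positivity) hm0.ne', hm, Real.log_exp]
      ring
    unfold Eexp
    rw [hlog, hJη']
    have h1 : η * (L0 + ε / η) ≤ ε * (L0 + 1) := by
      have : η * (L0 + ε / η) = η * L0 + ε := by field_simp
      rw [this]
      nlinarith
    have h2 : 4 * J * κ * η * (L0 + ε / η) ≤ 4 * J * κ * (ε * (L0 + 1)) := by
      calc 4 * J * κ * η * (L0 + ε / η) = 4 * J * κ * (η * (L0 + ε / η)) := by ring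
        _ ≤ _ := by gcongr
    have h3 : (1 / 2 + 4 * k) * ((J + 1) * η) ≤ (1 / 2 + 4 * k) * ((J + 1) * ε) := by gcongr
    have h4 : ε * W ≤ ε₀ / 2 := by
      calc ε * W ≤ ε₀ / (2 * W) * W := by
            gcongr
            exact min_le_left _ _
        _ = ε₀ / 2 := by field_simp
    have h5 : ε * W = ε + 4 * J * κ * (ε * (L0 + 1)) + (1 / 2 + 4 * k) * ((J + 1) * ε) := by
      rw [hW]; ring
    have h6 : e ≤ max e ((1 - 2 * Real.pi * κ) / 4) := le_max_left _ _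
    linarith
  · rw [hJη']
    have h1 : Real.pi * κ * η * ell J / ((J + 1) * η) = Real.pi * κ * (ell J / (J + 1)) := by
      field_simp
    rw [h1]
    set x := ell J / ((J : ℝ) + 1) with hx
    have hx0 : 0 ≤ x := div_nonneg (ell_nonneg J) (by positivity)
    have h2 : (1 / 2 : ℝ) * (1 / 2 - Real.pi * κ * x) ≤ (1 - 2 * Real.pi * κ) / 4 + ε₀ / 4 := by
      have h3 : Real.pi * κ * (1 - τ) ≤ Real.pi * κ * x := by gcongr
      have h4 : Real.pi * κ * τ = ε₀ / 2 := by rw [hτ]; field_simp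
      linarith
    have h3 : δ * (1 / 2 - Real.pi * κ * x) ≤ ε₀ / 8 := by
      have h4 : 0 ≤ Real.pi * κ * x := by positivity
      calc δ * (1 / 2 - Real.pi * κ * x) ≤ δ * 1 := by gcongr; linarith
        _ ≤ ε₀ / 8 := by linarith
    have h6 : (1 - 2 * Real.pi * κ) / 4 ≤ max e ((1 - 2 * Real.pi * κ) / 4) := le_max_right _ _
    have h7 : (1 / 2 + δ) * (1 / 2 - Real.pi * κ * x) =
        1 / 2 * (1 / 2 - Real.pi * κ * x) + δ * (1 / 2 - Real.pi * κ * x) := by ring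
    linarith

end family

end Pool.Agent.H23.GLM
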