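import Pool.Agent.H23.GLM.Grow
import Pool.Agent.H23.GLM.Sample
import Pool.Agent.H23.GLH.Instance

/-! Families of `L`-data satisfy the hypotheses of the sampling theorem. -/

set_option autoImplicit false

open Complex MeasureTheory Set Filter Topology

namespace Pool.Agent.H23.GLM

open Pool.Agent.H23.GLH

variable {m : ℕ}

lemma zeta_refl {x t : ℝ} (hx : 0 < x) (hx4 : x ≤ 1 / 4) : ‖Fz (1 / 2 - x + t * I)‖ ≤
    (7 * AΓ) * (1 + |t|) ^ x * ‖Fz (1 / 2 + x + t * I)‖ := by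
  have hA := AΓ_pos
  have hfun := functional_ineq' (1 : DirichletCharacter ℂ 1)
    DirichletCharacter.isPrimitive_one_level_one x t hx hx4
  rw [DirichletCharacter.LFunction_modOne_eq, Nat.cast_one, one_mul] at hfun
  have r1 : (1 / 2 - x + t * I : ℂ).re = 1 / 2 - x := by simp
  have r2 : (1 / 2 + x + t * I : ℂ).re = 1 / 2 + x := by simp
  rw [Fz_eq (by rw [r1]; linarith) (ne_one_of_re_lt (by rw [r1]; linarith)),
    Fz_eq (by rw [r2]; linarith) (ne_one_of_re_lt (by rw [r2]; linarith)), norm_mul, norm_mul]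
  have h1 := (norm_ratio_le (s := 1 / 2 - x + t * I) (by rw [r1]; linarith)
    (by rw [r1]; linarith)).1
  have h2 := (norm_ratio_le (s := 1 / 2 + x + t * I) (by rw [r2]; linarith)
    (by rw [r2]; linarith)).2
  have hz := norm_nonneg (riemannZeta (1 / 2 + x + t * I))
  have hp : 0 ≤ (1 + |t|) ^ x := by positivity
  calc ‖riemannZeta (1 / 2 - x + t * I)‖ *
        ‖(1 / 2 - x + t * I - 1 : ℂ) / (1 / 2 - x + t * I + 1)‖
      ≤ (AΓ * (1 + |t|) ^ x * ‖riemannZeta (1 / 2 + x + t * I)‖) * 1 := by gcongr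
    _ = (7 * AΓ) * (1 + |t|) ^ x * (‖riemannZeta (1 / 2 + x + t * I)‖ * (1 / 7)) := by ring
    _ ≤ _ := by gcongr

open scoped Classical in
/-- The polar-free replacement of the `L`-function. -/
noncomputable def LData.F (π : LData m) (s : ℂ) : ℂ :=
  if Differentiable ℂ π.L then π.L s else Fz s

lemma LData.F_pos {π : LData m} (h : Differentiable ℂ π.L) : π.F = π.L :=
  funext fun _ => if_pos h

lemma LData.F_neg {π : LData m} (h : ¬ Differentiable ℂ π.L) : π.F = Fz :=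
  funext fun _ => if_neg h

lemma LData.order {π : LData m} (h : Differentiable ℂ π.L) :
    ∀ σ₁ σ₂ : ℝ, ∃ (A : ℝ) (k : ℕ), ∀ s : ℂ, σ₁ ≤ s.re → s.re ≤ σ₂ →
      ‖π.L s‖ ≤ Real.exp (A * (1 + ‖s‖) ^ k) := by
  rcases π.regular with ⟨_, h2⟩ | ⟨_, _, _, h4⟩
  · exact h2
  · exfalso
    have h5 : ContinuousAt π.L 1 := h.continuous.continuousAt
    rw [h4] at h5
    have h6 := riemannZeta_residue_one
    have h7 : Tendsto (fun s : ℂ => (s - 1) * riemannZeta s) (𝓝[≠] 1)
        (𝓝 ((1 - 1) * riemannZeta 1)) := by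
      refine Tendsto.mul ?_ (h5.tendsto.mono_left nhdsWithin_le_nhds)
      exact ((continuous_id.sub continuous_const).tendsto' 1 (1 - 1) (by simp)).mono_left
        nhdsWithin_le_nhds
    rw [sub_self, zero_mul] at h7
    have h8 := tendsto_nhds_unique h6 h7
    norm_num at h8

lemma LData.zeta_of {π : LData m} (h : ¬ Differentiable ℂ π.L) :
    m = 1 ∧ π.C = 1 ∧ π.L = riemannZeta := by
  rcases π.regular with ⟨h1, _⟩ | ⟨h1, h2, h3, h4⟩
  · exact absurd h1 h
  · refine ⟨h1, ?_, h4⟩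
    unfold LData.C
    rw [h2, h3]
    simp

lemma norm_Fz_le_zeta {s : ℂ} (hs : 1 < s.re) : ‖Fz s‖ ≤ ‖riemannZeta s‖ := by
  have hs1 : s ≠ 1 := by
    rintro rfl
    simp at hs
  rw [Fz_eq (by linarith) hs1, norm_mul]
  have hr : ‖(s - 1) / (s + 1)‖ ≤ 1 := by
    have hpos : 0 < ‖s + 1‖ := norm_pos_iff.mpr (add_one_ne (by linarith))
    rw [norm_div, div_le_one hpos, ← sq_le_sq₀ (norm_nonneg _) (norm_nonneg _),
      ← Complex.normSq_eq_norm_sq,
      ← Complex.normSq_eq_norm_sq, Complex.normSq_apply, Complex.normSq_apply]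
    simp only [sub_re, one_re, sub_im, one_im, add_re, add_im]
    nlinarith
  calc ‖riemannZeta s‖ * ‖(s - 1) / (s + 1)‖ ≤ ‖riemannZeta s‖ * 1 := by gcongr
    _ = _ := mul_one _

lemma norm_F_le_L (π : LData m) (t : ℝ) :
    ‖π.F (1 / 2 + t * I)‖ ≤ ‖π.L (1 / 2 + t * I)‖ ∧
      ‖π.L (1 / 2 + t * I)‖ ≤ 7 * ‖π.F (1 / 2 + t * I)‖ := by
  by_cases h : Differentiable ℂ π.L
  · rw [LData.F_pos h]
    have := norm_nonneg (π.L (1 / 2 + t * I))
    constructor <;> linarith
  · obtain ⟨_, _, hL⟩ := LData.zeta_of h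
    have r1 : (1 / 2 + t * I : ℂ).re = 1 / 2 := by simp
    rw [LData.F_neg h, hL, Fz_eq (by rw [r1]; norm_num)
      (ne_one_of_re_lt (by rw [r1]; norm_num)), norm_mul]
    have h1 := norm_ratio_le (s := 1 / 2 + t * I) (by rw [r1]; norm_num) (by rw [r1]; norm_num)
    have hz := norm_nonneg (riemannZeta (1 / 2 + t * I))
    constructor
    · nlinarith [h1.1]
    · nlinarith [h1.2]

/-- The family is admissible. -/
theorem exists_adm {S : Set (LData m)} (hS : Molteni S) :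
    ∃ A : ℝ, Adm (fun π : S => (π : LData m).F) (fun π : S => (π : LData m).C) m A 1 := by
  obtain ⟨B₀, hB₀⟩ := hS (1 / 4) (by norm_num)
  set B := max B₀ 1 with hBdef
  have hB1 : 1 ≤ B := le_max_right _ _
  have hB : ∀ π ∈ S, ∀ s : ℂ, 5 / 4 ≤ s.re → ‖π.L s‖ ≤ B * π.C ^ (1 / 4 : ℝ) := by
    intro π hπ s hs
    refine (hB₀ π hπ s (by linarith)).trans ?_
    have h1 := π.one_le_C
    have h2 : B₀ ≤ B := le_max_left _ _
    gcongr
  have hA := AR_ge
  have hΓ := AΓ_pos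
  have h16 : (1:ℝ) ≤ (16 * AR) ^ m := one_le_pow₀ (by linarith)
  set A := (16 * AR) ^ m * B + (7 * AΓ + 16) with hAdef
  have hAB : (16 * AR) ^ m * B ≤ A := by rw [hAdef]; linarith
  have hA0 : 0 < (16 * AR) ^ m * B := by positivity
  have hA7 : 7 * AΓ ≤ A := by rw [hAdef]; linarith
  have hA16 : 16 ≤ A := by rw [hAdef]; linarith
  refine ⟨A, fun π => (π : LData m).one_le_C, by linarith, ?_, ?_, ?_, ?_⟩
  · rintro ⟨π, hπ⟩
    show DifferentiableOn ℂ π.F {s | 0 < s.re}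
    by_cases h : Differentiable ℂ π.L
    · rw [LData.F_pos h]
      exact h.differentiableOn
    · rw [LData.F_neg h]
      exact differentiableOn_Fz
  · rintro ⟨π, hπ⟩ s hs
    show ‖π.F s‖ ≤ A * (π.C * (1 + |s.im|) ^ m) ^ 1
    rw [pow_one]
    have hC := π.one_le_C
    have him := abs_nonneg s.im
    by_cases h : Differentiable ℂ π.L
    · rw [LData.F_pos h]
      refine (grow_entire π h (LData.order h) hB1 (hB π hπ) hs).trans ?_
      gcongr
    · obtain ⟨hm, hC1, hL⟩ := LData.zeta_of h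
      rw [LData.F_neg h, hC1, one_mul]
      refine (norm_Fz_le hs).trans ?_
      rw [hm, pow_one] at *
      gcongr
  · rintro ⟨π, hπ⟩ x t hx hx4
    show ‖π.F (1 / 2 - x + t * I)‖ ≤ A * (π.C * (1 + |t|) ^ m) ^ x * ‖π.F (1 / 2 + x + t * I)‖
    have hC := π.one_le_C
    have ht := abs_nonneg t
    have hp : 0 ≤ (π.C * (1 + |t|) ^ m) ^ x := by positivity
    by_cases h : Differentiable ℂ π.L
    · rw [LData.F_pos h]
      refine (π.refl h.continuous hx (by linarith) t).trans ?_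
      have h2 : (2 * AR) ^ m ≤ A := by
        calc (2 * AR) ^ m ≤ (16 * AR) ^ m := by gcongr; norm_num
          _ = (16 * AR) ^ m * 1 := (mul_one _).symm
          _ ≤ (16 * AR) ^ m * B := by gcongr
          _ ≤ A := hAB
      gcongr
    · obtain ⟨hm, hC1, hL⟩ := LData.zeta_of h
      rw [LData.F_neg h, hC1, one_mul]
      refine (zeta_refl hx hx4).trans ?_
      have : (1 + |t|) ^ m = 1 + |t| := by rw [hm, pow_one]
      rw [this]
      gcongr
  · intro δ hδ
    obtain ⟨B', hB'⟩ := hS δ hδ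
    refine ⟨B', ?_⟩
    rintro ⟨π, hπ⟩ s hs
    show ‖π.F s‖ ≤ B' * π.C ^ δ
    refine le_trans ?_ (hB' π hπ s hs.ge)
    by_cases h : Differentiable ℂ π.L
    · rw [LData.F_pos h]
    · obtain ⟨_, _, hL⟩ := LData.zeta_of h
      rw [LData.F_neg h, hL]
      exact norm_Fz_le_zeta (by linarith)

lemma bound_of_bd {S : Set (LData m)} {a : ℝ}
    (h : Bd (fun π : S => (π : LData m).F) (fun π : S => (π : LData m).C) m a) :
    Bound S a := by
  obtain ⟨B, hB⟩ := h
  refine ⟨7 * B, fun π hπ t => ?_⟩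
  have h1 := hB ⟨π, hπ⟩ t
  simp only at h1
  have h2 := (norm_F_le_L π t).2
  unfold LData.X
  linarith

lemma smp_of_goodSamples {S : Set (LData m)} {a κ η r : ℝ} (h : GoodSamples S a κ η r) :
    Smp (fun π : S => (π : LData m).F) (fun π : S => (π : LData m).C) m 1 a κ η r := by
  obtain ⟨K, hK⟩ := h
  refine ⟨K, fun π t ht => ?_⟩
  obtain ⟨Z, h1, h2, h3⟩ := hK π π.2 t ht
  refine ⟨Z, h1, fun u hu => ⟨(h2 u hu).1, ?_⟩, h3⟩
  rw [one_mul]
  exact (norm_F_le_L (π : LData m) u).1.trans (h2 u hu).2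

lemma goodSamples_mono {S : Set (LData m)} {a a' κ κ' η r r' : ℝ} (hη : 0 ≤ η) (hκ : κ' ≤ κ)
    (ha : a ≤ a') (hr : r' ≤ r) (h : GoodSamples S a κ η r) : GoodSamples S a' κ' η r' := by
  obtain ⟨K, hK⟩ := h
  refine ⟨K, fun π hπ t ht => ?_⟩
  obtain ⟨Z, h1, h2, h3⟩ := hK π hπ t ht
  have h0 : 0 ≤ Real.log (π.X t) := Real.log_nonneg (π.one_le_X t)
  refine ⟨Z, le_trans ?_ h1, fun u hu => ⟨(h2 u hu).1, (h2 u hu).2.trans ?_⟩,
    fun u hu v hv huv => le_trans ?_ (h3 u hu v hv huv)⟩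
  · gcongr
  · exact Real.rpow_le_rpow_of_exponent_le (π.one_le_X u) ha
  · gcongr

lemma continuous_L_line (π : LData m) : Continuous fun u : ℝ => π.L (1 / 2 + u * I) := by
  rcases π.regular with ⟨h, _⟩ | ⟨_, _, _, h⟩
  · exact h.continuous.comp (by fun_prop)
  · rw [h]
    rw [continuous_iff_continuousAt]
    intro u
    have h1 : (1 / 2 + (u : ℂ) * I) ≠ 1 := ne_one_of_re_lt (by simp; norm_num)
    have h2 : ContinuousAt riemannZeta (1 / 2 + (u : ℂ) * I) :=
      (differentiableAt_riemannZeta h1).continuousAt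
    exact ContinuousAt.comp (f := fun u : ℝ => 1 / 2 + (u : ℂ) * I) h2 (by fun_prop)

/-- Good sets of small measure contain many spaced points. -/
theorem goodSamples_of_goodWindows {S : Set (LData m)} {e κ η r : ℝ} (hη : 0 < η) (hκ : 0 < κ)
    (hκη : κ * η ≤ 1 / 2) (hr : 0 < r) (hW : GoodWindows S e η r) : GoodSamples S e κ η r := by
  obtain ⟨K, hK⟩ := hW
  refine ⟨max K (Real.exp 2), fun π hπ t ht => ?_⟩
  have hKt := hK π hπ t ((le_max_left _ _).trans ht)
  set Q := π.X t with hQ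
  have hQ2 : Real.exp 2 ≤ Q := (le_max_right _ _).trans ht
  have hQ0 : 0 < Q := (Real.exp_pos 2).trans_le hQ2
  have hΛ : 2 ≤ Real.log Q := by
    rw [← Real.log_exp 2]
    exact Real.log_le_log (Real.exp_pos 2) hQ2
  set Λ := Real.log Q with hΛdef
  set S' : Set ℝ := {u : ℝ | u ∈ Icc t (t + η) ∧ ‖π.L (1 / 2 + u * I)‖ ≤ π.X u ^ e} with hS'
  have hSc : IsCompact S' := by
    refine isCompact_Icc.of_isClosed_subset ?_ fun u hu => hu.1
    have h1 := continuous_L_line π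
    have h2 : Continuous fun u : ℝ => π.X u ^ e := by
      refine Continuous.rpow_const ?_ fun v => Or.inl ?_
      · unfold LData.X; fun_prop
      · have := π.one_le_X v
        positivity
    exact isClosed_Icc.inter (isClosed_le h1.norm h2)
  set N := ⌈κ * η * Λ⌉₊ with hN
  have hNup : (N : ℝ) < κ * η * Λ + 1 := Nat.ceil_lt_add_one (by positivity)
  have hNΛ : (N : ℝ) ≤ Λ := by
    have : κ * η * Λ ≤ 1 / 2 * Λ := by gcongr
    linarith
  have hfin : volume S' ≠ ⊤ := hSc.measure_lt_top.ne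
  have hvol : (N : ℝ) * (r / Λ) ≤ volume.real S' := by
    calc (N : ℝ) * (r / Λ) ≤ Λ * (r / Λ) := by gcongr
      _ = r := by field_simp
      _ ≤ volume.real S' := by
          rw [measureReal_def, ← ENNReal.ofReal_le_iff_le_toReal hfin]
          exact hKt
  obtain ⟨Z, hZ1, hZ2, hZ3⟩ := exists_points (γ := r / Λ) (by positivity) N S' hSc hvol
  refine ⟨Z, ?_, fun u hu => hZ1 u hu, hZ3⟩
  rw [hZ2, hN]
  exact Nat.le_ceil _

/-- **Sampling theorem for `L`-data of degree `m`.** -/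
theorem sampling {S : Set (LData m)} (hM : Molteni S) {a κ : ℝ} (ha : 0 ≤ a) (hκ : 0 < κ)
    (hS : ∀ ε > 0, ∃ η > 0, η ≤ ε ∧ GoodSamples S (a + ε) κ η (Real.exp (-(ε / η)))) :
    ∀ ε > 0, Bound S (max a ((1 - 2 * Real.pi * κ) / 4) + ε) := by
  intro ε hε
  apply bound_of_bd
  obtain ⟨A, hA⟩ := exists_adm hM
  set κ' := min κ 1 with hκ'
  have hκ'0 : 0 < κ' := by rw [hκ']; exact lt_min hκ one_pos
  have h1 := family_sampling hA le_rfl ha hκ'0 (min_le_right _ _)
    (fun ε hε => by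
      obtain ⟨η, hη, hηε, h⟩ := hS ε hε
      exact ⟨η, hη, hηε, smp_of_goodSamples
        (goodSamples_mono hη.le (min_le_left _ _) le_rfl le_rfl h)⟩)
    ε hε
  refine h1.mono hA ?_
  have hpi := Real.pi_gt_three
  have h2 : (1 - 2 * Real.pi * κ') / 4 ≤ max a ((1 - 2 * Real.pi * κ) / 4) := by
    rcases le_or_gt κ 1 with h | h
    · rw [hκ', min_eq_left h]; exact le_max_right _ _
    · rw [hκ', min_eq_right h.le]
      refine le_trans ?_ (le_max_left _ _)
      linarith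
  have h3 := max_le (le_max_left a ((1 - 2 * Real.pi * κ) / 4)) h2
  linarith

end Pool.Agent.H23.GLM
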