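import Pool.Agent.H23.GLH.GammaStrip

/-! The ratio `Γ(w + x) / Γ(w)` in a half plane and the ratio of the archimedean factors. -/

set_option autoImplicit false

open Complex MeasureTheory Set Filter Topology

namespace Pool.Agent.H23.GLM

open Pool.Agent.H23.GLH

lemma norm_Gamma_half_ge (y : ℝ) :
    Real.sqrt Real.pi * Real.exp (-(Real.pi * |y| / 2)) ≤ ‖Gamma (1 / 2 + y * I)‖ := by
  have hpi := Real.pi_pos
  have h := norm_Gamma_half_sq y
  refine le_of_sq_le_sq ?_ (norm_nonneg _)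
  rw [h, mul_pow, Real.sq_sqrt hpi.le, ← Real.exp_nat_mul, le_div_iff₀ (Real.cosh_pos _)]
  have e1 : ((2 : ℕ) : ℝ) * -(Real.pi * |y| / 2) = -(Real.pi * |y|) := by push_cast; ring
  rw [e1]
  have h1 : Real.cosh (Real.pi * y) ≤ Real.exp (Real.pi * |y|) := by
    rw [Real.cosh_eq]
    have h2 : Real.exp (Real.pi * y) ≤ Real.exp (Real.pi * |y|) := by
      apply Real.exp_le_exp.mpr
      have := le_abs_self y
      gcongr
    have h3 : Real.exp (-(Real.pi * y)) ≤ Real.exp (Real.pi * |y|) := by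
      apply Real.exp_le_exp.mpr
      have := neg_le_abs y
      nlinarith
    linarith
  calc Real.pi * Real.exp (-(Real.pi * |y|)) * Real.cosh (Real.pi * y)
      ≤ Real.pi * Real.exp (-(Real.pi * |y|)) * Real.exp (Real.pi * |y|) := by gcongr
    _ = Real.pi * (Real.exp (-(Real.pi * |y|)) * Real.exp (Real.pi * |y|)) := by ring
    _ = Real.pi := by rw [← Real.exp_add]; simp

/-- A crude bound in the half plane, from the beta integral. -/
lemma exists_growth {x : ℝ} (hx : 0 < x) (hx1 : x < 1) :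
    ∃ C : ℝ, 0 ≤ C ∧ ∀ w : ℂ, 1 / 2 ≤ w.re → ‖Gamma (w + x)‖ ≤ C * ‖w‖ * ‖Gamma w‖ := by
  set g : ℝ → ℂ := fun t => (t : ℂ) ^ ((1 / 2 : ℂ) - 1) * (1 - (t : ℂ)) ^ ((1 - x : ℂ) - 1) with hg
  have h1x : (0:ℝ) < (1 - x : ℂ).re := by simp; linarith
  have hgi : IntervalIntegrable g volume 0 1 :=
    betaIntegral_convergent (u := 1 / 2) (v := 1 - x) (by simp) h1x
  have hG : 0 < Real.Gamma (1 - x) := Real.Gamma_pos_of_pos (by linarith)
  refine ⟨(∫ t in (0:ℝ)..1, ‖g t‖) / Real.Gamma (1 - x),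
    div_nonneg (intervalIntegral.integral_nonneg zero_le_one fun t _ => norm_nonneg _) hG.le,
    fun w hw => ?_⟩
  have hwx : 0 < (w + x : ℂ).re := by simp; linarith
  have h1 := Gamma_mul_Gamma_eq_betaIntegral (s := w + x) (t := 1 - x) hwx h1x
  have hw0 : w ≠ 0 := by rintro rfl; simp at hw; linarith
  have e1 : w + x + (1 - x) = w + 1 := by ring
  rw [e1, Gamma_add_one _ hw0] at h1
  have e2 : ‖Gamma (1 - x : ℂ)‖ = Real.Gamma (1 - x) := by
    have : (1 - x : ℂ) = ((1 - x : ℝ) : ℂ) := by push_cast; ring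
    rw [this, Complex.Gamma_ofReal, Complex.norm_real, Real.norm_of_nonneg hG.le]
  have hB : ‖betaIntegral (w + x) (1 - x)‖ ≤ ∫ t in (0:ℝ)..1, ‖g t‖ := by
    unfold betaIntegral
    refine (intervalIntegral.norm_integral_le_integral_norm zero_le_one).trans ?_
    refine intervalIntegral.integral_mono_on_of_le_Ioo zero_le_one
      (betaIntegral_convergent hwx h1x).norm hgi.norm fun t ht => ?_
    rw [hg]
    simp only
    rw [norm_mul, norm_mul]
    have h2 : ‖(t : ℂ) ^ (w + x - 1)‖ ≤ ‖(t : ℂ) ^ ((1 / 2 : ℂ) - 1)‖ := by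
      rw [Complex.norm_cpow_eq_rpow_re_of_pos ht.1, Complex.norm_cpow_eq_rpow_re_of_pos ht.1]
      apply Real.rpow_le_rpow_of_exponent_ge ht.1 ht.2.le
      simp
      linarith
    gcongr
  have h3 : ‖Gamma (w + x)‖ * Real.Gamma (1 - x) ≤
      ‖w‖ * ‖Gamma w‖ * ∫ t in (0:ℝ)..1, ‖g t‖ := by
    rw [← e2, ← norm_mul, h1, norm_mul, norm_mul]
    gcongr
  rw [div_mul_eq_mul_div, div_mul_eq_mul_div, le_div_iff₀ hG]
  refine h3.trans (le_of_eq ?_)
  ring

/-- The constant in the bound for the ratio of Gamma functions. -/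
noncomputable def AR : ℝ := 8 * Real.sqrt 2 * Real.exp (9 / 4)

lemma AR_ge : 8 ≤ AR := by
  unfold AR
  have h1 : 1 ≤ Real.sqrt 2 := by
    rw [Real.one_le_sqrt]; norm_num
  have h2 : 1 ≤ Real.exp (9 / 4) := Real.one_le_exp (by norm_num)
  nlinarith

lemma Gamma_ne_zero_of_half {w : ℂ} (hw : 1 / 2 ≤ w.re) : Gamma w ≠ 0 :=
  Gamma_ne_zero_of_re_pos (by linarith)

lemma differentiableAt_Gamma_of_pos {w : ℂ} (hw : 0 < w.re) : DifferentiableAt ℂ Gamma w := by
  apply differentiableAt_Gamma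
  intro m hm
  rw [hm] at hw
  simp at hw
  have : (0:ℝ) ≤ m := Nat.cast_nonneg m
  linarith

/-- **The ratio of Gamma functions** in the half plane `Re w ≥ 1/2`. -/
theorem norm_Gamma_add_le {x : ℝ} (hx : 0 < x) (hx1 : x < 1) {w : ℂ} (hw : 1 / 2 ≤ w.re) :
    ‖Gamma (w + x)‖ ≤ AR * ‖w + 1‖ ^ x * ‖Gamma w‖ := by
  have hpi := Real.pi_pos
  obtain ⟨C, hC0, hC⟩ := exists_growth hx hx1
  set f : ℂ → ℂ := fun u => Gamma (u + 1 / 2 + x) / (Gamma (u + 1 / 2) * (u + 3 / 2) ^ (x : ℂ))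
    with hf
  have hslit : ∀ u : ℂ, 0 ≤ u.re → (u + 3 / 2) ∈ slitPlane := by
    intro u hu
    left
    simp
    linarith
  have hnz : ∀ u : ℂ, 0 ≤ u.re → Gamma (u + 1 / 2) * (u + 3 / 2) ^ (x : ℂ) ≠ 0 := by
    intro u hu
    refine mul_ne_zero (Gamma_ne_zero_of_half (by simp; linarith)) ?_
    rw [Ne, Complex.cpow_eq_zero_iff]
    exact fun h => slitPlane_ne_zero (hslit u hu) h.1
  have hdiff : ∀ u : ℂ, 0 ≤ u.re → DifferentiableAt ℂ f u := by
    intro u hu
    refine DifferentiableAt.div ?_ (DifferentiableAt.mul ?_ ?_) (hnz u hu)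
    · have h1 : DifferentiableAt ℂ Gamma (u + 1 / 2 + x) :=
        differentiableAt_Gamma_of_pos (by simp; linarith)
      exact h1.comp u (by fun_prop)
    · have h1 : DifferentiableAt ℂ Gamma (u + 1 / 2) :=
        differentiableAt_Gamma_of_pos (by simp; linarith)
      exact h1.comp u (by fun_prop)
    · exact (by fun_prop : DifferentiableAt ℂ (fun u : ℂ => u + 3 / 2) u).cpow_const (hslit u hu)
  have hcl : closure {z : ℂ | 0 < z.re} ⊆ {z : ℂ | 0 ≤ z.re} :=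
    closure_minimal (fun z (hz : 0 < z.re) => show 0 ≤ z.re from hz.le)
      (isClosed_le continuous_const Complex.continuous_re)
  have hd : DiffContOnCl ℂ f {z | 0 < z.re} :=
    DifferentiableOn.diffContOnCl fun z hz => (hdiff z (hcl hz)).differentiableWithinAt
  have hnorm : ∀ u : ℂ, 0 ≤ u.re →
      ‖f u‖ = ‖Gamma (u + 1 / 2 + x)‖ / (‖Gamma (u + 1 / 2)‖ * ‖u + 3 / 2‖ ^ x) := by
    intro u hu
    have h1 : ‖(u + 3 / 2) ^ (x : ℂ)‖ = ‖u + 3 / 2‖ ^ x := by
      rw [Complex.norm_cpow_of_ne_zero (slitPlane_ne_zero (hslit u hu))]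
      simp
    rw [hf]
    simp only
    rw [norm_div, norm_mul, h1]
  have h32 : ∀ u : ℂ, 0 ≤ u.re → 1 ≤ ‖u + 3 / 2‖ := by
    intro u hu
    refine le_trans ?_ (Complex.re_le_norm _)
    simp
    linarith
  have hpos : ∀ u : ℂ, 0 ≤ u.re → 0 < ‖Gamma (u + 1 / 2)‖ * ‖u + 3 / 2‖ ^ x := by
    intro u hu
    have h1 : 0 < ‖Gamma (u + 1 / 2)‖ :=
      norm_pos_iff.mpr (Gamma_ne_zero_of_half (by simp; linarith))
    have := h32 u hu
    positivity
  have hgrowth : ∀ u : ℂ, 0 ≤ u.re → ‖f u‖ ≤ C * (‖u‖ + 1 / 2) := by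
    intro u hu
    rw [hnorm u hu, div_le_iff₀ (hpos u hu)]
    have h1 := hC (u + 1 / 2) (by simp; linarith)
    have h2 : (1:ℝ) ≤ ‖u + 3 / 2‖ ^ x := Real.one_le_rpow (h32 u hu) hx.le
    have h3 : ‖u + 1 / 2‖ ≤ ‖u‖ + 1 / 2 := by
      refine (norm_add_le _ _).trans ?_
      simp
    calc ‖Gamma (u + 1 / 2 + x)‖ ≤ C * ‖u + 1 / 2‖ * ‖Gamma (u + 1 / 2)‖ := h1
      _ ≤ C * (‖u‖ + 1 / 2) * (‖Gamma (u + 1 / 2)‖ * 1) := by rw [mul_one]; gcongr
      _ ≤ _ := by gcongr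
  have hmain : ∀ u : ℂ, 0 ≤ u.re → ‖f u‖ ≤ AR := by
    intro u hu
    refine PhragmenLindelof.right_half_plane_of_bounded_on_real hd ⟨1, by norm_num, 1, ?_⟩ ?_ ?_ hu
    · refine Asymptotics.IsBigO.of_bound C ?_
      rw [Filter.eventually_inf_principal]
      refine Filter.Eventually.of_forall fun z hz => ?_
      have hz' : 0 < z.re := hz
      have hz0 : 0 ≤ z.re := hz'.le
      refine (hgrowth z hz0).trans ?_
      rw [one_mul, Real.rpow_one, Real.norm_of_nonneg (Real.exp_pos _).le]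
      have := Real.add_one_le_exp ‖z‖
      gcongr
      linarith
    · refine ⟨1, ?_⟩
      rw [Filter.eventually_map]
      filter_upwards [Filter.eventually_ge_atTop 0] with a ha
      have hare : 0 ≤ (a : ℂ).re := by simpa using ha
      rw [hnorm _ hare, div_le_one (hpos _ hare)]
      have e1 : ((a : ℂ) + 1 / 2 + x) = ((a + 1 / 2 + x : ℝ) : ℂ) := by push_cast; ring
      have e2 : ((a : ℂ) + 1 / 2) = ((a + 1 / 2 : ℝ) : ℂ) := by push_cast; ring
      have e3 : ((a : ℂ) + 3 / 2) = ((a + 3 / 2 : ℝ) : ℂ) := by push_cast; ring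
      have ha2 : 0 < a + 1 / 2 := by linarith
      have g1 : 0 < Real.Gamma (a + 1 / 2) := Real.Gamma_pos_of_pos ha2
      have g2 : 0 < Real.Gamma (a + 1 / 2 + x) := Real.Gamma_pos_of_pos (by linarith)
      rw [e1, e2, e3, Complex.Gamma_ofReal, Complex.Gamma_ofReal, Complex.norm_real,
        Complex.norm_real, Complex.norm_real, Real.norm_of_nonneg g1.le,
        Real.norm_of_nonneg g2.le, Real.norm_of_nonneg (by linarith)]
      have h1 := Real.Gamma_mul_add_mul_le_rpow_Gamma_mul_rpow_Gamma (s := a + 1 / 2)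
        (t := a + 1 / 2 + 1) (a := 1 - x) (b := x) ha2 (by linarith) (by linarith) hx (by ring)
      have e4 : (1 - x) * (a + 1 / 2) + x * (a + 1 / 2 + 1) = a + 1 / 2 + x := by ring
      rw [e4, Real.Gamma_add_one ha2.ne', Real.mul_rpow ha2.le g1.le] at h1
      have e5 : Real.Gamma (a + 1 / 2) ^ (1 - x) * ((a + 1 / 2) ^ x *
          Real.Gamma (a + 1 / 2) ^ x) = Real.Gamma (a + 1 / 2) * (a + 1 / 2) ^ x := by
        have : Real.Gamma (a + 1 / 2) ^ (1 - x) * Real.Gamma (a + 1 / 2) ^ x =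
            Real.Gamma (a + 1 / 2) := by
          rw [← Real.rpow_add g1]; simp
        calc _ = (Real.Gamma (a + 1 / 2) ^ (1 - x) * Real.Gamma (a + 1 / 2) ^ x) *
              (a + 1 / 2) ^ x := by ring
          _ = _ := by rw [this]
      rw [e5] at h1
      refine h1.trans ?_
      have h2 : (a + 1 / 2) ^ x ≤ (a + 3 / 2) ^ x :=
        Real.rpow_le_rpow ha2.le (by linarith) hx.le
      gcongr
    · intro v
      have hre : 0 ≤ ((v : ℂ) * I).re := by simp
      rw [hnorm _ hre, div_le_iff₀ (hpos _ hre)]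
      have e1 : (v : ℂ) * I + 1 / 2 + x = ((1 / 2 + x : ℝ) : ℂ) + v * I := by push_cast; ring
      have e2 : (v : ℂ) * I + 1 / 2 = 1 / 2 + v * I := by ring
      have h1 := norm_Gamma_strip (1 / 2 + x) v (by linarith) (by linarith)
      have h2 := norm_Gamma_half_ge v
      rw [e1, e2]
      have e3 : 1 / 2 + x - 1 / 2 = x := by ring
      rw [e3] at h1
      have h3 : 1 + |v| ≤ 2 * ‖(v : ℂ) * I + 3 / 2‖ := by
        have h4 := Complex.abs_im_le_norm ((v : ℂ) * I + 3 / 2)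
        have h5 := h32 _ hre
        simp at h4
        linarith
      have h4 : (1 + |v|) ^ x ≤ 2 * ‖(v : ℂ) * I + 3 / 2‖ ^ x := by
        calc (1 + |v|) ^ x ≤ (2 * ‖(v : ℂ) * I + 3 / 2‖) ^ x :=
              Real.rpow_le_rpow (by positivity) h3 hx.le
          _ = 2 ^ x * ‖(v : ℂ) * I + 3 / 2‖ ^ x := Real.mul_rpow (by norm_num) (norm_nonneg _)
          _ ≤ 2 ^ (1:ℝ) * ‖(v : ℂ) * I + 3 / 2‖ ^ x := by
              have := Real.rpow_le_rpow_of_exponent_le (by norm_num : (1:ℝ) ≤ 2) hx1.le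
              gcongr
          _ = _ := by rw [Real.rpow_one]
      have e6 : Real.sqrt (2 * Real.pi) = Real.sqrt 2 * Real.sqrt Real.pi :=
        Real.sqrt_mul (by norm_num) _
      calc ‖Gamma (((1 / 2 + x : ℝ) : ℂ) + v * I)‖
          ≤ 4 * Real.sqrt (2 * Real.pi) * Real.exp (9 / 4) * (1 + |v|) ^ x *
            Real.exp (-(Real.pi * |v| / 2)) := h1
        _ ≤ 4 * Real.sqrt (2 * Real.pi) * Real.exp (9 / 4) *
            (2 * ‖(v : ℂ) * I + 3 / 2‖ ^ x) * Real.exp (-(Real.pi * |v| / 2)) := by gcongr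
        _ = AR * ((Real.sqrt Real.pi * Real.exp (-(Real.pi * |v| / 2))) *
            ‖(v : ℂ) * I + 3 / 2‖ ^ x) := by
            rw [e6, AR]; ring
        _ ≤ _ := by
            have := AR_ge
            gcongr
  have h1 := hmain (w - 1 / 2) (by simp; linarith)
  have hre : 0 ≤ (w - 1 / 2 : ℂ).re := by simp; linarith
  rw [hnorm _ hre, div_le_iff₀ (hpos _ hre)] at h1
  have e1 : w - 1 / 2 + 1 / 2 + x = w + x := by ring
  have e2 : w - 1 / 2 + 1 / 2 = w := by ring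
  have e3 : w - 1 / 2 + 3 / 2 = w + 1 := by ring
  rw [e1, e2, e3] at h1
  refine h1.trans (le_of_eq ?_)
  ring

/-- The ratio of the archimedean factors at `z + x` and `z - x`. -/
theorem norm_Gammaℝ_ratio {x : ℝ} (hx : 0 < x) (hx1 : x < 1) {z : ℂ} (hz : 0 ≤ z.re) :
    ‖Gammaℝ (z + x) * (Gammaℝ (z - x))⁻¹‖ ≤ AR * (1 + ‖z‖) ^ x := by
  have hpi := Real.pi_pos
  have hA := AR_ge
  have hRHS : 0 ≤ AR * (1 + ‖z‖) ^ x := by positivity
  by_cases hzx : z - x = 0
  · have : (Gammaℝ (z - x))⁻¹ = 0 := by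
      rw [hzx, inv_eq_zero, Gammaℝ_eq_zero_iff]
      exact ⟨0, by simp⟩
    rw [this, mul_zero, norm_zero]
    exact hRHS
  have hzx' : z + x ≠ 0 := by
    intro h
    have := congrArg Complex.re h
    simp at this
    linarith
  -- the ratio at `z + 2`
  set w : ℂ := (z + 2 - x) / 2 with hw
  have hwre : 1 / 2 ≤ w.re := by
    rw [hw]
    have : ((z + 2 - x) / 2 : ℂ).re = (z.re + 2 - x) / 2 := by
      rw [show ((z + 2 - x) / 2 : ℂ) = ((1 / 2 : ℝ) : ℂ) * (z + 2 - x) by push_cast; ring,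
        re_ofReal_mul]
      simp
      ring
    rw [this]
    linarith
  have h1 := norm_Gamma_add_le hx hx1 hwre
  have hG := Gamma_ne_zero_of_half hwre
  have hGpos : 0 < ‖Gamma w‖ := norm_pos_iff.mpr hG
  have e1 : Gammaℝ (z + x + 2) = (Real.pi : ℂ) ^ (-(z + x + 2) / 2) * Gamma (w + x) := by
    rw [Gammaℝ_def]
    congr 2
    rw [hw]; ring
  have e2 : Gammaℝ (z - x + 2) = (Real.pi : ℂ) ^ (-(z - x + 2) / 2) * Gamma w := by
    rw [Gammaℝ_def]
    congr 2
    rw [hw]; ring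
  have hγ2 : Gammaℝ (z - x + 2) ≠ 0 := by
    rw [e2]
    refine mul_ne_zero ?_ hG
    rw [Ne, Complex.cpow_eq_zero_iff]
    intro h
    exact hpi.ne' (by exact_mod_cast h.1)
  have f1 := Gammaℝ_add_two hzx'
  have f2 := Gammaℝ_add_two hzx
  have hγ : Gammaℝ (z - x) ≠ 0 := by
    intro h
    rw [f2, h] at hγ2
    simp at hγ2
  have hkey : Gammaℝ (z + x) * (Gammaℝ (z - x))⁻¹ =
      Gammaℝ (z + x + 2) / Gammaℝ (z - x + 2) * ((z - x) / (z + x)) := by
    rw [f1, f2]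
    have hpc : (Real.pi : ℂ) ≠ 0 := by exact_mod_cast hpi.ne'
    field_simp
  have hn1 : ‖Gammaℝ (z + x + 2) / Gammaℝ (z - x + 2)‖ ≤ AR * (1 + ‖z‖) ^ x := by
    rw [e1, e2, norm_div, norm_mul, norm_mul, Complex.norm_cpow_eq_rpow_re_of_pos hpi,
      Complex.norm_cpow_eq_rpow_re_of_pos hpi]
    have r1 : (-(z + x + 2) / 2 : ℂ).re = -(z.re + x + 2) / 2 := by
      rw [show (-(z + x + 2) / 2 : ℂ) = ((-1 / 2 : ℝ) : ℂ) * (z + x + 2) by push_cast; ring,
        re_ofReal_mul]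
      simp
      ring
    have r2 : (-(z - x + 2) / 2 : ℂ).re = -(z.re - x + 2) / 2 := by
      rw [show (-(z - x + 2) / 2 : ℂ) = ((-1 / 2 : ℝ) : ℂ) * (z - x + 2) by push_cast; ring,
        re_ofReal_mul]
      simp
      ring
    rw [r1, r2, div_le_iff₀ (by positivity)]
    have h2 : ‖w + 1‖ ≤ 2 * (1 + ‖z‖) := by
      have : w + 1 = z / 2 + (2 - x / 2 : ℂ) := by rw [hw]; ring
      rw [this]
      refine (norm_add_le _ _).trans ?_
      have h3 : ‖(2 - x / 2 : ℂ)‖ ≤ 2 := by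
        rw [show (2 - x / 2 : ℂ) = ((2 - x / 2 : ℝ) : ℂ) by push_cast; ring, Complex.norm_real,
          Real.norm_of_nonneg (by linarith)]
        linarith
      have h4 : ‖z / 2‖ = ‖z‖ / 2 := by simp
      rw [h4]
      have := norm_nonneg z
      linarith
    have h3 : ‖w + 1‖ ^ x ≤ 2 ^ x * (1 + ‖z‖) ^ x := by
      rw [← Real.mul_rpow (by norm_num) (by positivity)]
      exact Real.rpow_le_rpow (norm_nonneg _) h2 hx.le
    have h4 : (2:ℝ) ^ x ≤ Real.pi ^ x :=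
      Real.rpow_le_rpow (by norm_num) (by linarith [Real.pi_gt_three]) hx.le
    have h5 : Real.pi ^ (-(z.re + x + 2) / 2) * Real.pi ^ x =
        Real.pi ^ (-(z.re - x + 2) / 2) := by
      rw [← Real.rpow_add hpi]; congr 1; ring
    calc Real.pi ^ (-(z.re + x + 2) / 2) * ‖Gamma (w + x)‖
        ≤ Real.pi ^ (-(z.re + x + 2) / 2) * (AR * (Real.pi ^ x * (1 + ‖z‖) ^ x) * ‖Gamma w‖) := by
          have h6 : ‖w + 1‖ ^ x ≤ Real.pi ^ x * (1 + ‖z‖) ^ x := h3.trans (by gcongr)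
          have h7 : AR * ‖w + 1‖ ^ x * ‖Gamma w‖ ≤
              AR * (Real.pi ^ x * (1 + ‖z‖) ^ x) * ‖Gamma w‖ := by gcongr
          exact mul_le_mul_of_nonneg_left (h1.trans h7) (by positivity)
      _ = AR * (1 + ‖z‖) ^ x *
          ((Real.pi ^ (-(z.re + x + 2) / 2) * Real.pi ^ x) * ‖Gamma w‖) := by ring
      _ = _ := by rw [h5]
  have hn2 : ‖(z - x) / (z + x)‖ ≤ 1 := by
    rw [norm_div, div_le_one (norm_pos_iff.mpr hzx'), ← sq_le_sq₀ (norm_nonneg _) (norm_nonneg _),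
      ← Complex.normSq_eq_norm_sq, ← Complex.normSq_eq_norm_sq, Complex.normSq_apply,
      Complex.normSq_apply]
    simp only [sub_re, sub_im, add_re, add_im, ofReal_re, ofReal_im]
    nlinarith [mul_nonneg hz hx.le]
  rw [hkey, norm_mul]
  calc _ ≤ (AR * (1 + ‖z‖) ^ x) * 1 := by gcongr
    _ = _ := mul_one _

end Pool.Agent.H23.GLM
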