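import Pool.Agent.H23.GLM.Func

/-! A polynomial bound for `L`-data, uniform in the analytic conductor. -/

set_option autoImplicit false

open Complex MeasureTheory Set Filter Topology

namespace Pool.Agent.H23.GLM

open Pool.Agent.H23.GLH

variable {m : ℕ}

lemma pow_le_factorial_mul_exp (k : ℕ) {y : ℝ} (hy : 0 ≤ y) :
    y ^ k ≤ k.factorial * Real.exp y := by
  have := Real.pow_div_factorial_le_exp y hy k
  rwa [div_le_iff₀ (by positivity), mul_comm] at this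

lemma one_add_im_le_add_two {s : ℂ} (h : -(1 / 4) ≤ s.re) : 1 + |s.im| ≤ 2 * ‖s + 2‖ := by
  have h1 := Complex.abs_im_le_norm (s + 2)
  have h2 := Complex.re_le_norm (s + 2)
  simp at h1 h2
  linarith

theorem grow_entire (π : LData m) (hd : Differentiable ℂ π.L)
    (hord : ∀ σ₁ σ₂ : ℝ, ∃ (A : ℝ) (k : ℕ), ∀ s : ℂ, σ₁ ≤ s.re → s.re ≤ σ₂ →
      ‖π.L s‖ ≤ Real.exp (A * (1 + ‖s‖) ^ k))
    {B : ℝ} (hB1 : 1 ≤ B) (hB : ∀ s : ℂ, 5 / 4 ≤ s.re → ‖π.L s‖ ≤ B * π.C ^ (1 / 4 : ℝ))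
    {s : ℂ} (hs : 1 / 4 ≤ s.re) :
    ‖π.L s‖ ≤ (16 * AR) ^ m * B * (π.C * (1 + |s.im|) ^ m) := by
  have hA := AR_ge
  have hC1 := π.one_le_C
  have hC0 : 0 < π.C := by linarith
  have hCq : π.C ^ (1 / 4 : ℝ) ≤ π.C := by
    calc π.C ^ (1 / 4 : ℝ) ≤ π.C ^ (1 : ℝ) :=
          Real.rpow_le_rpow_of_exponent_le hC1 (by norm_num)
      _ = π.C := Real.rpow_one _
  have h16 : (1:ℝ) ≤ (16 * AR) ^ m := one_le_pow₀ (by linarith)
  have him := abs_nonneg s.im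
  have h1im : (1:ℝ) ≤ (1 + |s.im|) ^ m := one_le_pow₀ (by linarith)
  rcases le_or_gt (5 / 4) s.re with h | h
  · calc ‖π.L s‖ ≤ B * π.C ^ (1 / 4 : ℝ) := hB s h
      _ ≤ 1 * B * (π.C * 1) := by rw [one_mul, mul_one]; gcongr
      _ ≤ _ := by gcongr
  set M := (4 * AR) ^ m * B * π.C with hM
  have hM0 : 0 < M := by positivity
  set g : ℂ → ℂ := fun z => π.L z / (z + 2) ^ m with hg
  have hn2 : ∀ z : ℂ, -(1 / 4) ≤ z.re → 1 ≤ ‖z + 2‖ := by
    intro z hz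
    refine le_trans ?_ (Complex.re_le_norm _)
    simp
    linarith
  have hne : ∀ z : ℂ, -(1 / 4) ≤ z.re → z + 2 ≠ 0 := by
    intro z hz
    exact norm_pos_iff.mp (by linarith [hn2 z hz])
  have hnorm : ∀ z : ℂ, ‖g z‖ = ‖π.L z‖ / ‖z + 2‖ ^ m := by
    intro z
    rw [hg]
    simp only
    rw [norm_div, norm_pow]
  have hcl : closure (re ⁻¹' Ioo (-(1 / 4) : ℝ) (5 / 4)) ⊆ re ⁻¹' Icc (-(1 / 4) : ℝ) (5 / 4) :=
    closure_minimal (preimage_mono Ioo_subset_Icc_self)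
      (isClosed_Icc.preimage Complex.continuous_re)
  have hdc : DiffContOnCl ℂ g (re ⁻¹' Ioo (-(1 / 4) : ℝ) (5 / 4)) := by
    refine DifferentiableOn.diffContOnCl fun z hz => ?_
    have hz0 : -(1 / 4) ≤ z.re := (hcl hz).1
    refine DifferentiableAt.differentiableWithinAt ?_
    exact (hd z).div (by fun_prop) (pow_ne_zero _ (hne z hz0))
  have hgL : ∀ z : ℂ, -(1 / 4) ≤ z.re → ‖g z‖ ≤ ‖π.L z‖ := by
    intro z hz
    rw [hnorm]
    exact div_le_self (norm_nonneg _) (one_le_pow₀ (hn2 z hz))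
  have hleft : ∀ z : ℂ, z.re = -(1 / 4) → ‖g z‖ ≤ M := by
    intro z hz
    have hz0 : -(1 / 4) ≤ z.re := hz.ge
    rw [hnorm, div_le_iff₀ (pow_pos (by linarith [hn2 z hz0]) _)]
    have e1 : z = 1 / 2 - (3 / 4 : ℝ) + z.im * I := by
      apply Complex.ext
      · simp [hz]; norm_num
      · simp
    have h1 := π.refl hd.continuous (x := 3 / 4) (by norm_num) (by norm_num) z.im
    rw [← e1] at h1
    have h2 := hB (1 / 2 + (3 / 4 : ℝ) + z.im * I) (by simp; norm_num)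
    have hv := abs_nonneg z.im
    have h1v : (1:ℝ) ≤ (1 + |z.im|) ^ m := one_le_pow₀ (by linarith)
    set P := (1 + |z.im|) ^ m with hP
    have hP2 : P ≤ 2 ^ m * ‖z + 2‖ ^ m := by
      rw [hP, ← mul_pow]
      have := one_add_im_le_add_two hz0
      gcongr
    have h3 : (π.C * P) ^ (3 / 4 : ℝ) ≤ π.C ^ (3 / 4 : ℝ) * P := by
      rw [Real.mul_rpow hC0.le (by linarith)]
      have : P ^ (3 / 4 : ℝ) ≤ P := by
        calc P ^ (3 / 4 : ℝ) ≤ P ^ (1 : ℝ) :=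
              Real.rpow_le_rpow_of_exponent_le h1v (by norm_num)
          _ = P := Real.rpow_one _
      gcongr
    have h4 : π.C ^ (3 / 4 : ℝ) * π.C ^ (1 / 4 : ℝ) = π.C := by
      rw [← Real.rpow_add hC0]; norm_num
    calc ‖π.L z‖ ≤ (2 * AR) ^ m * (π.C * P) ^ (3 / 4 : ℝ) *
          ‖π.L (1 / 2 + (3 / 4 : ℝ) + z.im * I)‖ := h1
      _ ≤ (2 * AR) ^ m * (π.C ^ (3 / 4 : ℝ) * P) * (B * π.C ^ (1 / 4 : ℝ)) := by gcongr
      _ = (2 * AR) ^ m * B * (π.C ^ (3 / 4 : ℝ) * π.C ^ (1 / 4 : ℝ)) * P := by ring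
      _ = (2 * AR) ^ m * B * π.C * P := by rw [h4]
      _ ≤ (2 * AR) ^ m * B * π.C * (2 ^ m * ‖z + 2‖ ^ m) := by gcongr
      _ = ((2 * AR) ^ m * 2 ^ m) * B * π.C * ‖z + 2‖ ^ m := by ring
      _ = _ := by rw [← mul_pow, hM]; ring
  have hright : ∀ z : ℂ, z.re = 5 / 4 → ‖g z‖ ≤ M := by
    intro z hz
    refine (hgL z (by rw [hz]; norm_num)).trans ((hB z hz.ge).trans ?_)
    have h4 : (1:ℝ) ≤ (4 * AR) ^ m := one_le_pow₀ (by linarith)
    calc B * π.C ^ (1 / 4 : ℝ) ≤ 1 * B * π.C := by rw [one_mul]; gcongr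
      _ ≤ _ := by rw [hM]; gcongr
  have hmain : ‖g s‖ ≤ M := by
    obtain ⟨A, k, hAk⟩ := hord (-(1 / 4)) (5 / 4)
    refine PhragmenLindelof.vertical_strip hdc
      ⟨1, ?_, |A| * (k.factorial * Real.exp (9 / 4)), ?_⟩ hleft hright (by linarith) h.le
    · rw [lt_div_iff₀ (by norm_num)]
      have := Real.pi_gt_three
      linarith
    · refine Asymptotics.IsBigO.of_bound 1 ?_
      rw [Filter.eventually_inf_principal]
      refine Filter.Eventually.of_forall fun z hz => ?_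
      have hz' : z.re ∈ Ioo (-(1 / 4) : ℝ) (5 / 4) := hz
      refine (hgL z hz'.1.le).trans ((hAk z hz'.1.le hz'.2.le).trans ?_)
      rw [one_mul, Real.norm_of_nonneg (Real.exp_pos _).le]
      apply Real.exp_le_exp.mpr
      have h1 : 1 + ‖z‖ ≤ 9 / 4 + |z.im| := by
        have h2 := Complex.norm_le_abs_re_add_abs_im z
        have h3 : |z.re| ≤ 5 / 4 := abs_le.mpr ⟨by linarith [hz'.1], hz'.2.le⟩
        linarith
      have h2 := pow_le_factorial_mul_exp k (by positivity : 0 ≤ 1 + ‖z‖)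
      have h3 : (1 + ‖z‖) ^ k ≤ k.factorial * (Real.exp (9 / 4) * Real.exp (1 * |z.im|)) := by
        refine h2.trans ?_
        rw [← Real.exp_add, one_mul]
        gcongr
      calc A * (1 + ‖z‖) ^ k ≤ |A| * (1 + ‖z‖) ^ k := by
            have := le_abs_self A
            gcongr
        _ ≤ |A| * (k.factorial * (Real.exp (9 / 4) * Real.exp (1 * |z.im|))) := by gcongr
        _ = _ := by ring
  have hs0 : -(1 / 4) ≤ s.re := by linarith
  rw [hnorm, div_le_iff₀ (pow_pos (by linarith [hn2 s hs0]) _)] at hmain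
  have h5 : ‖s + 2‖ ≤ 4 * (1 + |s.im|) := by
    have h2 := Complex.norm_le_abs_re_add_abs_im (s + 2)
    have h3 : |(s + 2).re| ≤ 13 / 4 := by
      simp only [add_re, re_ofNat]
      exact abs_le.mpr ⟨by linarith, by linarith⟩
    have h4 : (s + 2).im = s.im := by simp
    rw [h4] at h2
    linarith
  calc ‖π.L s‖ ≤ M * ‖s + 2‖ ^ m := hmain
    _ ≤ M * (4 * (1 + |s.im|)) ^ m := by gcongr
    _ = ((4 * AR) ^ m * 4 ^ m) * B * (π.C * (1 + |s.im|) ^ m) := by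
        have e : (4 * (1 + |s.im|)) ^ m = 4 ^ m * (1 + |s.im|) ^ m := mul_pow _ _ _
        rw [hM, e]
        ring
    _ = _ := by
        rw [← mul_pow]
        congr 3
        ring

end Pool.Agent.H23.GLM
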